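import Pool.Agent.Q184.TwoNum.Count

/-! Lower bound for the total mod 2 Betti number of the manifold of unit elementary tensors. -/

open Bundle Bornology Set MeasureTheory Manifold Filter Topology
open scoped ENNReal ContDiff Manifold NNReal
open Pool.Agent.Helper562 Pool.Agent.Helper381

noncomputable section

namespace Q184.TwoNum

set_option linter.unusedSectionVars false
set_option maxSynthPendingDepth 3

attribute [local instance] rb mM

/-- the elementary abelian index group -/
abbrev V (n : ℕ) : Type := Fin (n + 1) → ZMod 2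

variable {n : ℕ}

/-- the value of a character -/
def sig (l : Fin (n + 1)) (i : V n) : ℝ := if i l = 0 then 1 else -1

lemma zmod2_cases (a : ZMod 2) : a = 0 ∨ a = 1 := by
  revert a; decide

lemma sig_sq (l : Fin (n + 1)) (i : V n) : sig l i * sig l i = 1 := by
  unfold sig; split_ifs <;> norm_num

lemma sig_mul (l : Fin (n + 1)) (i j k : V n) :
    sig l i * sig l j * sig l k = if i l + j l + k l = 0 then 1 else -1 := by
  unfold sig
  have h11 : (1 : ZMod 2) + 1 = 0 := by decide
  rcases zmod2_cases (i l) with h1 | h1 <;> rcases zmod2_cases (j l) with h2 | h2 <;>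
    rcases zmod2_cases (k l) with h3 | h3 <;> simp [h1, h2, h3, h11]

/-- the sign change given by a character -/
def D (l : Fin (n + 1)) : X (V n) ≃ₗᵢ[ℝ] X (V n) :=
  LinearIsometryEquiv.piLpCongrRight 2 fun i : V n =>
    if i l = 0 then LinearIsometryEquiv.refl ℝ ℝ else LinearIsometryEquiv.neg ℝ

lemma D_apply (l : Fin (n + 1)) (x : X (V n)) (i : V n) : D l x i = sig l i * x i := by
  unfold D sig
  rw [LinearIsometryEquiv.piLpCongrRight_apply]
  change (if i l = 0 then LinearIsometryEquiv.refl ℝ ℝ else LinearIsometryEquiv.neg ℝ) (x i) = _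
  split_ifs <;> simp

/-- the sign change of the tensors -/
def DA (l : Fin (n + 1)) : M (V n) ≃ᵢ M (V n) := isoM ⟨K (D l) (D l) (D l), K_mem_iff _ _ _⟩

lemma emb_DA (l : Fin (n + 1)) (t : M (V n)) (p : V n × V n × V n) :
    emb (DA l t) p = (sig l p.1 * sig l p.2.1 * sig l p.2.2) * emb t p := by
  obtain ⟨x, y, z, hx, hy, hz, ht⟩ := t.2
  have ht' : emb t = T x y z := ht.symm
  have h : emb (DA l t) = K (D l) (D l) (D l) (emb t) := rfl
  rw [h, ht', K_T, T_apply, T_apply, D_apply, D_apply, D_apply]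
  ring

/-- the list of involutions -/
def gs (n : ℕ) : List (M (V n) ≃ᵢ M (V n)) := (List.finRange (n + 1)).map DA

lemma mem_gs {g : M (V n) ≃ᵢ M (V n)} (h : g ∈ gs n) : ∃ l, g = DA l := by
  obtain ⟨l, _, rfl⟩ := List.mem_map.1 h
  exact ⟨l, rfl⟩

lemma DA_mem (l : Fin (n + 1)) : DA l ∈ gs n := List.mem_map.2 ⟨l, List.mem_finRange l, rfl⟩

/-- the common fixed points -/
lemma fixed_eq (t : M (V n)) (h : ∀ g ∈ gs n, g t = t) :
    ∃ i j b, t = pt i j (i + j) b := by
  obtain ⟨x, y, z, hx, hy, hz, ht⟩ := t.2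
  have ht' : emb t = T x y z := ht.symm
  have hsum : ∀ i j k : V n, x i ≠ 0 → y j ≠ 0 → z k ≠ 0 → i + j + k = 0 := by
    intro i j k hi hj hk
    funext l
    by_contra hl
    have hl' : ¬ (i l + j l + k l = 0) := hl
    have h1 := congrArg (fun u : M (V n) => emb u (i, j, k)) (h _ (DA_mem l))
    simp only [emb_DA, sig_mul, if_neg hl'] at h1
    rw [ht', T_apply] at h1
    have h2 : x i * y j * z k ≠ 0 := mul_ne_zero (mul_ne_zero hi hj) hk
    apply h2
    linarith
  have hne : ∀ v : X (V n), ‖v‖ = 1 → ∃ i, v i ≠ 0 := by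
    intro v hv
    by_contra hcon
    push Not at hcon
    have : v = 0 := by ext i; simpa using hcon i
    rw [this] at hv; simp at hv
  obtain ⟨i, hi⟩ := hne x hx
  obtain ⟨j, hj⟩ := hne y hy
  obtain ⟨k, hk⟩ := hne z hz
  have h0 := hsum i j k hi hj hk
  have hone : ∀ v : X (V n), ‖v‖ = 1 → ∀ i, (∀ i', v i' ≠ 0 → i' = i) → v = ee i ∨ v = -ee i := by
    intro v hv i hi
    have hv1 : v = v i • ee i := by
      ext i'
      by_cases h : i' = i
      · subst h; simp [ee]
      · have : v i' = 0 := by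
          by_contra h'; exact h (hi i' h')
        rw [this]; simp [ee, h]
    have h2 : |v i| = 1 := by
      rw [hv1, norm_smul, norm_ee, mul_one, Real.norm_eq_abs] at hv; exact hv
    rcases (abs_eq zero_le_one).1 h2 with h3 | h3
    · left; rw [hv1, h3, one_smul]
    · right; rw [hv1, h3, neg_one_smul]
  have hx' := hone x hx i (fun i' hi' => by
    have := hsum i' j k hi' hj hk
    have e : i' + j + k = i + j + k := this.trans h0.symm
    simpa using e)
  have hy' := hone y hy j (fun j' hj' => by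
    have := hsum i j' k hi hj' hk
    have e : i + j' + k = i + j + k := this.trans h0.symm
    simpa using e)
  have hz' := hone z hz k (fun k' hk' => by
    have := hsum i j k' hi hj hk'
    have e : i + j + k' = i + j + k := this.trans h0.symm
    simpa using e)
  have hk0 : k = i + j := by
    have h1 : ∀ a : V n, a + a = 0 := fun a => by
      funext l
      have : ∀ b : ZMod 2, b + b = 0 := by decide
      exact this (a l)
    calc k = (i + j) + ((i + j) + k) := by rw [← add_assoc, h1, zero_add]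
      _ = i + j := by rw [h0, add_zero]
  rw [hk0] at hz'
  have hfin : emb t = T (ee i) (ee j) (ee (i + j)) ∨ emb t = -T (ee i) (ee j) (ee (i + j)) := by
    rw [ht']
    rcases hx' with h1 | h1 <;> rcases hy' with h2 | h2 <;> rcases hz' with h3 | h3 <;>
      rw [h1, h2, h3] <;> simp only [T_neg₁, T_neg₂, T_neg₃, neg_neg] <;> simp
  rcases hfin with h | h
  · refine ⟨i, j, true, emb_inj ?_⟩
    rw [h, emb_pt]; simp [sg]
  · refine ⟨i, j, false, emb_inj ?_⟩
    rw [h, emb_pt, T_smul]; simp [sg]

/-- the finite set of common fixed points -/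
def fixPts (n : ℕ) : Finset (M (V n)) := by
  classical
  exact (Finset.univ : Finset (V n × V n × Bool)).image fun p => pt p.1 p.2.1 (p.1 + p.2.1) p.2.2

lemma card_fixPts : (fixPts n).card = 2 ^ (2 * (n + 1) + 1) := by
  classical
  unfold fixPts
  rw [Finset.card_image_of_injective, Finset.card_univ]
  · simp only [Fintype.card_prod, Fintype.card_fun, ZMod.card, Fintype.card_fin, Fintype.card_bool]
    ring
  · rintro ⟨i, j, b⟩ ⟨i', j', b'⟩ h
    obtain ⟨h1, h2⟩ := pt_inj h
    simp only [Prod.mk.injEq] at h1 h2 ⊢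
    exact ⟨h1.1, h1.2.1, h2⟩

lemma mem_fixPts {t : M (V n)} : t ∈ fixPts n ↔ ∃ i j b, t = pt i j (i + j) b := by
  classical
  unfold fixPts
  simp only [Finset.mem_image, Finset.mem_univ, true_and, Prod.exists]
  constructor
  · rintro ⟨i, j, b, h⟩; exact ⟨i, j, b, h.symm⟩
  · rintro ⟨i, j, b, h⟩; exact ⟨i, j, b, h.symm⟩

/-- the total mod 2 Betti number is at least `2 q ^ 2` -/
theorem le_totalBetti : ((2 ^ (2 * (n + 1) + 1) : ℕ) : ℕ∞) ≤ totalBetti (ZMod 2) (M (V n)) := by
  obtain ⟨R, G⟩ := riemannian_geo (E := E (V n)) (M := M (V n))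
  rw [← card_fixPts]
  refine card_le_of_isolated G (fixPts n) (gs n) ?_ ?_ ?_ one_pos ?_
  · intro g hg t
    obtain ⟨l, rfl⟩ := mem_gs hg
    apply emb_inj
    ext p
    rw [emb_DA, emb_DA]
    linear_combination (sig l p.2.1 ^ 2 * sig l p.2.2 ^ 2 * emb t p) * sig_sq l p.1 +
      (sig l p.2.2 ^ 2 * emb t p) * sig_sq l p.2.1 + emb t p * sig_sq l p.2.2
  · intro g hg g' hg' t
    obtain ⟨l, rfl⟩ := mem_gs hg
    obtain ⟨l', rfl⟩ := mem_gs hg'
    apply emb_inj
    ext p
    rw [emb_DA, emb_DA, emb_DA, emb_DA]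
    ring
  · intro g hg t ht
    obtain ⟨l, rfl⟩ := mem_gs hg
    obtain ⟨i, j, b, rfl⟩ := mem_fixPts.1 ht
    apply emb_inj
    ext p
    rw [emb_DA, emb_pt_apply, sig_mul]
    by_cases hp : p = (i, j, i + j)
    · rw [if_pos hp, hp]
      have : i l + j l + (i + j) l = 0 := by
        have h2 : ∀ a b : ZMod 2, a + b + (a + b) = 0 := by decide
        exact h2 (i l) (j l)
      rw [if_pos this, one_mul]
    · rw [if_neg hp, mul_zero]
  · intro t ht u hu hfix
    obtain ⟨i, j, b, rfl⟩ := mem_fixPts.1 ht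
    obtain ⟨i', j', b', rfl⟩ := fixed_eq u hfix
    have h1 : ‖emb (pt i' j' (i' + j') b') - emb (pt i j (i + j) b)‖ < 1 :=
      lt_of_le_of_lt (norm_le_dist _ _) hu
    have h2 := PiLp.norm_apply_le (emb (pt i' j' (i' + j') b') - emb (pt i j (i + j) b)) (i, j, i + j)
    rw [PiLp.sub_apply, emb_pt_apply, emb_pt_apply, if_pos rfl] at h2
    by_cases h3 : (i, j, i + j) = (i', j', i' + j')
    · rw [if_pos h3] at h2
      simp only [Prod.mk.injEq] at h3
      obtain ⟨rfl, rfl, -⟩ := h3
      have hb : b' = b := by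
        cases b <;> cases b'
        · rfl
        · exfalso
          have := lt_of_le_of_lt h2 h1
          simp [sg] at this
          norm_num at this
        · exfalso
          have := lt_of_le_of_lt h2 h1
          simp [sg] at this
          norm_num at this
        · rfl
      rw [hb]
    · exfalso
      rw [if_neg h3] at h2
      have := lt_of_le_of_lt h2 h1
      cases b <;> simp [sg] at this

end Q184.TwoNum
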