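import Mathlib

/-! Edge partitions of a complete graph into three equivalence relations. -/

namespace Q184.TwoNum

/-- Let `R 0, R 1, R 2` be symmetric and transitive relations such that any two distinct elements
of the finite set `C` are related by exactly one of them. If `C` has at least five elements then
one of the relations relates all pairs of elements of `C`. -/
theorem comb {α : Type*} [DecidableEq α] (C : Finset α) (R : Fin 3 → α → α → Prop)
    (hsymm : ∀ i a b, R i a b → R i b a)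
    (htrans : ∀ i a b c, R i a b → R i b c → R i a c)
    (hex : ∀ a ∈ C, ∀ b ∈ C, a ≠ b → ∃ i, R i a b)
    (huniq : ∀ a ∈ C, ∀ b ∈ C, a ≠ b → ∀ i j, R i a b → R j a b → i = j)
    (h5 : 5 ≤ C.card) : ∃ i, ∀ a ∈ C, ∀ b ∈ C, a ≠ b → R i a b := by
  classical
  obtain ⟨c0, hc0⟩ : C.Nonempty := Finset.card_pos.1 (by omega)
  have hf : ∀ b : α, ∃ i : Fin 3, b ∈ C.erase c0 → R i c0 b := by
    intro b
    by_cases hb : b ∈ C.erase c0
    · obtain ⟨i, hi⟩ := hex c0 hc0 b (Finset.mem_of_mem_erase hb) (Finset.ne_of_mem_erase hb).symm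
      exact ⟨i, fun _ => hi⟩
    · exact ⟨0, fun h => absurd h hb⟩
  choose f hf using hf
  have hcard : (Finset.univ : Finset (Fin 3)).card < (C.erase c0).card := by
    rw [Finset.card_erase_of_mem hc0]
    simp
    omega
  obtain ⟨a, ha, b, hb, hab, hfab⟩ := Finset.exists_ne_map_eq_of_card_lt_of_maps_to hcard
    (fun x _ => Finset.mem_univ (f x))
  have haC := Finset.mem_of_mem_erase ha
  have hbC := Finset.mem_of_mem_erase hb
  have hac := Finset.ne_of_mem_erase ha
  have hbc := Finset.ne_of_mem_erase hb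
  have h1 := hf a ha
  have h2 := hf b hb
  rw [← hfab] at h2
  set i := f a with hi
  have h3 : R i a b := htrans i a c0 b (hsymm _ _ _ h1) h2
  have key : ∀ w ∈ C, w ≠ c0 → R i c0 w := by
    intro w hw hwc
    by_contra hcon
    have hwa : w ≠ a := fun h => hcon (h ▸ h1)
    have hwb : w ≠ b := fun h => hcon (h ▸ h2)
    obtain ⟨j1, hj1⟩ := hex w hw c0 hc0 hwc
    obtain ⟨j2, hj2⟩ := hex w hw a haC hwa
    obtain ⟨j3, hj3⟩ := hex w hw b hbC hwb
    have n1 : j1 ≠ i := by
      rintro rfl; exact hcon (hsymm _ _ _ hj1)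
    have n2 : j2 ≠ i := by
      intro h; rw [h] at hj2
      exact hcon (htrans _ _ _ _ h1 (hsymm _ _ _ hj2))
    have n3 : j3 ≠ i := by
      intro h; rw [h] at hj3
      exact hcon (htrans _ _ _ _ h2 (hsymm _ _ _ hj3))
    have m1 : j1 ≠ j2 := by
      intro h; rw [← h] at hj2
      exact n1 (huniq c0 hc0 a haC hac.symm _ _ (htrans _ _ _ _ (hsymm _ _ _ hj1) hj2) h1)
    have m2 : j1 ≠ j3 := by
      intro h; rw [← h] at hj3
      exact n1 (huniq c0 hc0 b hbC hbc.symm _ _ (htrans _ _ _ _ (hsymm _ _ _ hj1) hj3) h2)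
    have m3 : j2 ≠ j3 := by
      intro h; rw [← h] at hj3
      exact n2 (huniq a haC b hbC hab _ _ (htrans _ _ _ _ (hsymm _ _ _ hj2) hj3) h3)
    omega
  refine ⟨i, ?_⟩
  intro x hx y hy hxy
  by_cases hxc : x = c0
  · subst hxc
    exact key y hy (Ne.symm hxy)
  · by_cases hyc : y = c0
    · subst hyc
      exact hsymm _ _ _ (key x hx hxc)
    · exact htrans _ _ _ _ (hsymm _ _ _ (key x hx hxc)) (key y hy hyc)

end Q184.TwoNum
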