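import Pool.Agent.Q184.TwoNum.Symm
import Pool.Agent.Q184.TwoNum.Comb

/-! The two-number of the manifold of unit elementary tensors. -/

open Bundle Bornology Set MeasureTheory Manifold Filter Topology
open scoped ENNReal ContDiff Manifold NNReal
open Pool.Agent.Helper562 Pool.Agent.Helper381

noncomputable section

namespace Q184.TwoNum

set_option linter.unusedSectionVars false
set_option maxSynthPendingDepth 3

variable {ι : Type} [Fintype ι] [DecidableEq ι] [Zero ι] [Nontrivial ι]

attribute [local instance] rb mM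

/-- pairs of points which are fixed by the symmetry at each other -/
lemma pair_cases (c : Fin 3 → M ι → X ι) (hc1 : ∀ i t, ‖c i t‖ = 1)
    (hc2 : ∀ t, emb t = T (c 0 t) (c 1 t) (c 2 t)) (t u : M ι)
    (h : sym (c 0 t) (c 1 t) (c 2 t) u = u) (h1 : emb u ≠ emb t) (h2 : emb u ≠ -emb t) :
    ∃ i, (inner ℝ (c i t) (c i u)) ^ 2 = (1 : ℝ) ∧
      ∀ j, j ≠ i → inner ℝ (c j t) (c j u) = (0 : ℝ) := by
  have h5 : T (S (c 0 t) (c 0 u)) (S (c 1 t) (c 1 u)) (S (c 2 t) (c 2 u)) =
      T (c 0 u) (c 1 u) (c 2 u) := by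
    rw [← emb_sym _ _ _ _ _ _ u (hc2 u), h, hc2 u]
  obtain ⟨q0, q1, q2, hp⟩ := antipodal_cases _ _ _ _ _ _ (hc1 0 t) (hc1 1 t) (hc1 2 t)
    (hc1 0 u) (hc1 1 u) (hc1 2 u) h5
  rcases q0 with q0 | q0 <;> rcases q1 with q1 | q1 <;> rcases q2 with q2 | q2
  · rw [q0, q1, q2] at hp; norm_num at hp
  · refine ⟨2, q2, fun j hj => ?_⟩
    fin_cases j
    · exact q0
    · exact q1
    · exact absurd rfl hj
  · refine ⟨1, q1, fun j hj => ?_⟩
    fin_cases j
    · exact q0
    · exact absurd rfl hj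
    · exact q2
  · rw [q0, q1, q2] at hp; norm_num at hp
  · refine ⟨0, q0, fun j hj => ?_⟩
    fin_cases j
    · exact absurd rfl hj
    · exact q1
    · exact q2
  · rw [q0, q1, q2] at hp; norm_num at hp
  · rw [q0, q1, q2] at hp; norm_num at hp
  · exfalso
    rcases pm_of_all_one _ _ _ _ _ _ (hc1 0 t) (hc1 1 t) (hc1 2 t)
      (hc1 0 u) (hc1 1 u) (hc1 2 u) q0 q1 q2 with h | h
    · rw [← hc2, ← hc2] at h; exact h1 h
    · rw [← hc2, ← hc2] at h; exact h2 h

/-- sets of pairwise antipodal points which are not opposite have at most `max 4 q` elements -/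
lemma card_le_of_lines (c : Fin 3 → M ι → X ι) (hc1 : ∀ i t, ‖c i t‖ = 1)
    (hc2 : ∀ t, emb t = T (c 0 t) (c 1 t) (c 2 t)) (C : Finset (M ι))
    (hfix : ∀ t ∈ C, ∀ u ∈ C, sym (c 0 t) (c 1 t) (c 2 t) u = u)
    (hne : ∀ t ∈ C, ∀ u ∈ C, t ≠ u → emb u ≠ -emb t) :
    C.card ≤ max 4 (Fintype.card ι) := by
  classical
  by_contra hcon
  rw [not_le, max_lt_iff] at hcon
  obtain ⟨h4, hq⟩ := hcon
  have hone : ∀ (i : Fin 3) (a b : M ι), (inner ℝ (c i a) (c i b)) ^ 2 = (1 : ℝ) →
      c i b = c i a ∨ c i b = -c i a := fun i a b h => eq_or_neg_of_sq _ _ (hc1 i a) (hc1 i b) h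
  have hcomb := comb C (fun i a b => (inner ℝ (c i a) (c i b)) ^ 2 = (1 : ℝ))
    (by
      intro i a b h
      rw [real_inner_comm]; exact h)
    (by
      intro i a b d h1 h2
      rcases hone i b d h2 with h | h
      · rw [h]; exact h1
      · rw [h, inner_neg_right, neg_sq]; exact h1)
    (by
      intro a ha b hb hab
      obtain ⟨i, hi, -⟩ := pair_cases c hc1 hc2 a b (hfix _ ha _ hb)
        (fun h => hab (emb_inj h).symm) (hne _ ha _ hb hab)
      exact ⟨i, hi⟩)
    (by
      intro a ha b hb hab i j hi hj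
      obtain ⟨k, hk, hk'⟩ := pair_cases c hc1 hc2 a b (hfix _ ha _ hb)
        (fun h => hab (emb_inj h).symm) (hne _ ha _ hb hab)
      have e : ∀ l : Fin 3, (inner ℝ (c l a) (c l b)) ^ 2 = (1 : ℝ) → l = k := by
        intro l hl
        by_contra hlk
        rw [hk' l hlk] at hl
        norm_num at hl
      rw [e i hi, e j hj]) h4
  obtain ⟨i, hi⟩ := hcomb
  · -- all pairs agree in slot `i`, so that another slot is orthonormal
    obtain ⟨j, hj⟩ : ∃ j : Fin 3, j ≠ i := ⟨i + 1, by fin_cases i <;> decide⟩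
    have horth : Orthonormal ℝ (fun t : C => c j t.1) := by
      constructor
      · intro t; exact hc1 j t.1
      · intro t u htu
        have htu' : t.1 ≠ u.1 := fun h => htu (Subtype.ext h)
        obtain ⟨i', hi', hj'⟩ := pair_cases c hc1 hc2 t.1 u.1 (hfix _ t.2 _ u.2)
          (fun h => htu' (emb_inj h).symm) (hne _ t.2 _ u.2 htu')
        have : i' = i := by
          by_contra hne'
          have h0 := hj' i (Ne.symm hne')
          have h1 := hi _ t.2 _ u.2 htu'
          simp only [h0] at h1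
          norm_num at h1
        rw [this] at hj'
        exact hj' j hj
    have hcard := horth.linearIndependent.fintype_card_le_finrank
    rw [Fintype.card_coe, finrank_euclideanSpace] at hcard
    omega

/-- finite antipodal sets have at most `2 * max 4 q` elements -/
lemma card_antipodal_le (B : Finset (M ι)) (hB : IsAntipodal (B : Set (M ι))) :
    B.card ≤ 2 * max 4 (Fintype.card ι) := by
  classical
  obtain ⟨c, hc1, hc2⟩ := exists_comp (ι := ι)
  set f : M ι → Finset (F ι) := fun t => {emb t, -emb t} with hf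
  have h1 : B.card ≤ 2 * (B.image f).card := by
    apply Finset.card_le_mul_card_image
    intro s hs
    have : ((B.filter fun x => f x = s)).card ≤ s.card := by
      apply Finset.card_le_card_of_injOn emb
      · intro t ht
        have ht' : t ∈ B.filter fun x => f x = s := ht
        rw [Finset.mem_filter] at ht'
        change emb t ∈ (s : Set (F ι))
        rw [← ht'.2]
        simp [hf]
      · exact emb_inj.injOn
    refine this.trans ?_
    obtain ⟨t, _, rfl⟩ := Finset.mem_image.1 hs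
    exact Finset.card_le_two
  have h2 : ∀ s : Finset (F ι), ∃ t : M ι, s ∈ B.image f → t ∈ B ∧ f t = s := by
    intro s
    by_cases hs : s ∈ B.image f
    · obtain ⟨t, ht, hts⟩ := Finset.mem_image.1 hs
      exact ⟨t, fun _ => ⟨ht, hts⟩⟩
    · exact ⟨⟨T e0 e0 e0, e0, e0, e0, norm_e0, norm_e0, norm_e0, rfl⟩, fun h => absurd h hs⟩
  choose g hg using h2
  have h3 : ((B.image f).image g).card = (B.image f).card := by
    apply Finset.card_image_of_injOn
    intro s hs s' hs' hss
    have e1 := (hg s hs).2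
    have e2 := (hg s' hs').2
    rw [← e1, ← e2]
    exact congrArg f hss
  have h4 := card_le_of_lines c hc1 hc2 ((B.image f).image g) ?_ ?_
  · rw [h3] at h4
    omega
  · intro t ht u hu
    obtain ⟨s, hs, rfl⟩ := Finset.mem_image.1 ht
    obtain ⟨s', hs', rfl⟩ := Finset.mem_image.1 hu
    exact sym_fix hB (hg s hs).1 (hg s' hs').1 _ _ _ (hc1 0 _) (hc1 1 _) (hc1 2 _) (hc2 _)
  · intro t ht u hu htu hneg
    obtain ⟨s, hs, rfl⟩ := Finset.mem_image.1 ht
    obtain ⟨s', hs', rfl⟩ := Finset.mem_image.1 hu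
    apply htu
    have e1 := (hg s hs).2
    have e2 := (hg s' hs').2
    have : s = s' := by
      rw [← e1, ← e2]
      simp only [hf, hneg, neg_neg]
      exact Finset.pair_comm _ _
    rw [this]

theorem twoNumber_le' : twoNumber (M ι) ≤ (2 * max 4 (Fintype.card ι) : ℕ) := by
  classical
  apply iSup_le
  rintro ⟨A, hA⟩
  by_cases hfin : A.Finite
  · have := card_antipodal_le hfin.toFinset (by simpa using hA)
    rw [hfin.encard_eq_coe_toFinset_card]
    exact_mod_cast this
  · exfalso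
    have hinf : A.Infinite := hfin
    obtain ⟨B, hBA, hBc⟩ := hinf.exists_subset_card_eq (2 * max 4 (Fintype.card ι) + 1)
    have := card_antipodal_le B (fun x hx y hy => hA x (hBA hx) y (hBA hy))
    omega

/-- basis vectors -/
def ee (i : ι) : X ι := EuclideanSpace.single i 1

lemma norm_ee (i : ι) : ‖(ee i : X ι)‖ = 1 := by simp [ee]

/-- signs -/
def sg (b : Bool) : ℝ := if b then 1 else -1

lemma sg_sq (b : Bool) : sg b * sg b = 1 := by cases b <;> simp [sg]

lemma norm_sg_smul (b : Bool) (x : X ι) (hx : ‖x‖ = 1) : ‖sg b • x‖ = 1 := by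
  rw [norm_smul, hx]; cases b <;> simp [sg]

lemma T_smul (r : ℝ) (x y z : X ι) : T (r • x) y z = r • T x y z := by
  ext p; simp [T_apply]; ring

/-- the points `± e_i ⊗ e_j ⊗ e_k` -/
def pt (i j k : ι) (b : Bool) : M ι :=
  ⟨T (sg b • ee i) (ee j) (ee k), sg b • ee i, ee j, ee k, norm_sg_smul b _ (norm_ee i),
    norm_ee j, norm_ee k, rfl⟩

lemma emb_pt (i j k : ι) (b : Bool) : emb (pt i j k b) = T (sg b • ee i) (ee j) (ee k) := rfl

lemma emb_pt' (i j k : ι) (b : Bool) :
    emb (pt i j k b) = sg b • EuclideanSpace.single (i, j, k) (1 : ℝ) := by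
  rw [emb_pt, T_smul]
  congr 1
  ext p
  rw [T_apply]
  obtain ⟨p1, p2, p3⟩ := p
  simp only [ee, PiLp.single_apply, Prod.mk.injEq]
  by_cases h1 : p1 = i <;> by_cases h2 : p2 = j <;> by_cases h3 : p3 = k <;> simp [h1, h2, h3]

lemma emb_pt_apply (i j k : ι) (b : Bool) (p : ι × ι × ι) :
    emb (pt i j k b) p = if p = (i, j, k) then sg b else 0 := by
  rw [emb_pt', PiLp.smul_apply, PiLp.single_apply]
  split_ifs <;> simp

lemma pt_inj {i j k i' j' k' : ι} {b b' : Bool} (h : pt i j k b = pt i' j' k' b') :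
    (i, j, k) = (i', j', k') ∧ b = b' := by
  have h1 := congrArg (fun t : M ι => emb t (i, j, k)) h
  simp only [emb_pt_apply, if_true] at h1
  by_cases h2 : (i, j, k) = (i', j', k')
  · refine ⟨h2, ?_⟩
    rw [if_pos h2] at h1
    cases b <;> cases b' <;> simp [sg] at h1 ⊢ <;> norm_num at h1
  · rw [if_neg h2] at h1
    cases b <;> simp [sg] at h1

lemma inner_ee (i j : ι) (h : i ≠ j) : inner ℝ (ee i : X ι) (ee j) = (0 : ℝ) := by
  unfold ee
  rw [EuclideanSpace.inner_single_left]
  simp [h]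

lemma S_ee (i j : ι) : S (ee i : X ι) (ee j) = ee j ∨ S (ee i : X ι) (ee j) = -ee j ∧ i ≠ j := by
  by_cases h : i = j
  · subst h; exact Or.inl (S_self _ (norm_ee i))
  · exact Or.inr ⟨S_perp _ _ (norm_ee i) (inner_ee i j h), h⟩

/-- an antipodal set with `2 q` elements -/
theorem le_twoNumber : ((2 * Fintype.card ι : ℕ) : ℕ∞) ≤ twoNumber (M ι) := by
  classical
  set P : ι × Bool → M ι := fun p => pt 0 p.1 p.1 p.2 with hP
  have hinj : Function.Injective P := by
    rintro ⟨i, b⟩ ⟨i', b'⟩ h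
    obtain ⟨h1, h2⟩ := pt_inj h
    simp only [Prod.mk.injEq, true_and, and_self] at h1
    simp only at h2
    rw [h1, h2]
  have hanti : IsAntipodal (Set.range P) := by
    rintro _ ⟨⟨i, b⟩, rfl⟩ _ ⟨⟨j, b'⟩, rfl⟩
    refine ⟨sym (sg b • ee 0) (ee i) (ee i), isSymmetryAt_sym _ _ _
      (norm_sg_smul b _ (norm_ee 0)) (norm_ee i) (norm_ee i) _ (emb_pt 0 i i b), ?_⟩
    apply emb_inj
    have e0' : S (sg b • ee 0 : X ι) (sg b' • ee 0) = sg b' • ee 0 := by
      rw [S_apply _ _ (norm_sg_smul b _ (norm_ee 0)), inner_smul_left, inner_smul_right,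
        real_inner_self_eq_norm_sq, norm_ee, smul_smul]
      simp only [conj_trivial]
      rw [← sub_smul]
      congr 1
      linear_combination (2 * sg b') * sg_sq b
    rw [emb_sym _ _ _ _ _ _ _ (emb_pt 0 j j b'), e0']
    rcases S_ee i j with h | ⟨h, _⟩
    · rw [h]; rfl
    · rw [h, T_neg₂, T_neg₃, neg_neg]; rfl
  have h1 : (Set.range P).encard = ((2 * Fintype.card ι : ℕ) : ℕ∞) := by
    rw [← Set.image_univ, hinj.encard_image, Set.encard_univ, ENat.card_eq_coe_fintype_card,
      Fintype.card_prod, Fintype.card_bool, mul_comm]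
  rw [← h1]
  exact le_iSup (fun A : {A : Set (M ι) // IsAntipodal A} => A.1.encard) ⟨Set.range P, hanti⟩

theorem twoNumber_eq (h : 4 ≤ Fintype.card ι) :
    twoNumber (M ι) = ((2 * Fintype.card ι : ℕ) : ℕ∞) := by
  apply le_antisymm
  · have := twoNumber_le' (ι := ι)
    rwa [max_eq_right h] at this
  · exact le_twoNumber

end Q184.TwoNum
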