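import Pool.Agent.Q184.TwoNum.Betti

/-! The differential of the symmetries is minus the identity. -/

open Bundle Bornology Set MeasureTheory Manifold Filter Topology
open scoped ENNReal ContDiff Manifold NNReal
open Pool.Agent.Helper562 Pool.Agent.Helper381

noncomputable section

namespace Q184.TwoNum

set_option linter.unusedSectionVars false
set_option maxSynthPendingDepth 3

variable {ι : Type} [Fintype ι] [DecidableEq ι] [Zero ι] [Nontrivial ι]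

attribute [local instance] rb mM

lemma T_add₁ (x x' y z : X ι) : T (x + x') y z = T x y z + T x' y z := by
  ext p; simp [T_apply]; ring
lemma T_add₂ (x y y' z : X ι) : T x (y + y') z = T x y z + T x y' z := by
  ext p; simp [T_apply]; ring
lemma T_add₃ (x y z z' : X ι) : T x y (z + z') = T x y z + T x y z' := by
  ext p; simp [T_apply]; ring
lemma T_smul₂ (r : ℝ) (x y z : X ι) : T x (r • y) z = r • T x y z := by
  ext p; simp [T_apply]; ring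
lemma T_smul₃ (r : ℝ) (x y z : X ι) : T x y (r • z) = r • T x y z := by
  ext p; simp [T_apply]; ring

/-- splitting of a unit vector along another one -/
lemma split (x x' : X ι) (hx : ‖x‖ = 1) (hx' : ‖x'‖ = 1) : ∃ (α : ℝ) (a : X ι),
    x' = α • x + a ∧ S x x' = α • x - a ∧ ‖a‖ ^ 2 = 1 - α ^ 2 ∧ α = inner ℝ x x' := by
  refine ⟨inner ℝ x x', x' - inner ℝ x x' • x, by abel, ?_, ?_, rfl⟩
  · rw [S_apply x x' hx]; module
  · rw [norm_sub_sq_real, inner_smul_right, norm_smul, hx, hx', real_inner_comm, Real.norm_eq_abs,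
      mul_pow, sq_abs]
    ring

/-- elementary inequalities -/
lemma num_aux (α β γ : ℝ) (hα : α ^ 2 ≤ 1) (hβ : β ^ 2 ≤ 1) (hγ : γ ^ 2 ≤ 1) :
    α * β * γ ≤ 1 ∧ (α * β * γ) ^ 2 ≤ α ^ 2 ∧ (α * β * γ) ^ 2 ≤ β ^ 2 ∧
      (α * β * γ) ^ 2 ≤ γ ^ 2 := by
  have pα := sq_nonneg α
  have pβ := sq_nonneg β
  have pγ := sq_nonneg γ
  have e0 : (α * β * γ) ^ 2 = α ^ 2 * β ^ 2 * γ ^ 2 := by ring
  have e1 : α ^ 2 * β ^ 2 ≤ 1 := mul_le_one₀ hα pβ hβ
  have e2 : β ^ 2 * γ ^ 2 ≤ 1 := mul_le_one₀ hβ pγ hγ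
  have e3 : α ^ 2 * γ ^ 2 ≤ 1 := mul_le_one₀ hα pγ hγ
  have h1 : (α * β * γ) ^ 2 ≤ α ^ 2 := by
    calc (α * β * γ) ^ 2 = α ^ 2 * (β ^ 2 * γ ^ 2) := by ring
      _ ≤ α ^ 2 * 1 := by gcongr
      _ = α ^ 2 := mul_one _
  have h2 : (α * β * γ) ^ 2 ≤ β ^ 2 := by
    calc (α * β * γ) ^ 2 = β ^ 2 * (α ^ 2 * γ ^ 2) := by ring
      _ ≤ β ^ 2 * 1 := by gcongr
      _ = β ^ 2 := mul_one _
  have h3 : (α * β * γ) ^ 2 ≤ γ ^ 2 := by
    calc (α * β * γ) ^ 2 = γ ^ 2 * (α ^ 2 * β ^ 2) := by ring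
      _ ≤ γ ^ 2 * 1 := by gcongr
      _ = γ ^ 2 := mul_one _
  refine ⟨?_, h1, h2, h3⟩
  have h4 : (α * β * γ) ^ 2 ≤ 1 := h1.trans hα
  exact (abs_le.1 ((sq_le_one_iff_abs_le_one _).1 h4)).2

/-- the part of a nearby unit elementary tensor fixed by the symmetry is quadratically close to
the base point -/
lemma quad_close (x y z x' y' z' : X ι) (hx : ‖x‖ = 1) (hy : ‖y‖ = 1) (hz : ‖z‖ = 1)
    (hx' : ‖x'‖ = 1) (hy' : ‖y'‖ = 1) (hz' : ‖z'‖ = 1)
    (hpos : 0 < inner ℝ (T x y z) (T x' y' z')) :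
    ‖T x' y' z' + T (S x x') (S y y') (S z z') - (2 : ℝ) • T x y z‖ ≤
      7 * ‖T x' y' z' - T x y z‖ ^ 2 := by
  obtain ⟨α, a, h1, h1', na, iα⟩ := split x x' hx hx'
  obtain ⟨β, b, h2, h2', nb, iβ⟩ := split y y' hy hy'
  obtain ⟨γ, c, h3, h3', nc, iγ⟩ := split z z' hz hz'
  have hin : inner ℝ (T x y z) (T x' y' z') = α * β * γ := by
    rw [inner_T, iα, iβ, iγ]
  rw [hin] at hpos
  have hδ2 : ‖T x' y' z' - T x y z‖ ^ 2 = 2 - 2 * (α * β * γ) := by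
    rw [norm_sub_sq_real, norm_T, norm_T, hx, hy, hz, hx', hy', hz', real_inner_comm, hin]
    ring
  have hδ0 : 0 ≤ ‖T x' y' z' - T x y z‖ := norm_nonneg _
  have hα : α ^ 2 ≤ 1 := by linarith [sq_nonneg ‖a‖]
  have hβ : β ^ 2 ≤ 1 := by linarith [sq_nonneg ‖b‖]
  have hγ : γ ^ 2 ≤ 1 := by linarith [sq_nonneg ‖c‖]
  obtain ⟨hP1, hPα, hPβ, hPγ⟩ := num_aux α β γ hα hβ hγ
  have hexp : T x' y' z' + T (S x x') (S y y') (S z z') - (2 : ℝ) • T x y z =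
      (2 * (α * β * γ - 1)) • T x y z + (2 * α) • T x b c + (2 * β) • T a y c +
        (2 * γ) • T a b z := by
    rw [h1', h2', h3']
    rw [show T x' y' z' = T (α • x + a) (β • y + b) (γ • z + c) by rw [← h1, ← h2, ← h3]]
    ext p
    simp only [PiLp.add_apply, PiLp.sub_apply, PiLp.smul_apply, T_apply, smul_eq_mul]
    ring
  rw [hexp]
  generalize ‖T x' y' z' - T x y z‖ = δ at hδ2 hδ0
  have hP2 : 1 - (α * β * γ) ^ 2 ≤ δ ^ 2 := by nlinarith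
  have la : ‖a‖ ≤ δ := by
    apply le_of_sq_le_sq _ hδ0
    linarith
  have lb : ‖b‖ ≤ δ := by
    apply le_of_sq_le_sq _ hδ0
    linarith
  have lc : ‖c‖ ≤ δ := by
    apply le_of_sq_le_sq _ hδ0
    linarith
  have lα : |α| ≤ 1 := (sq_le_one_iff_abs_le_one _).1 hα
  have lβ : |β| ≤ 1 := (sq_le_one_iff_abs_le_one _).1 hβ
  have lγ : |γ| ≤ 1 := (sq_le_one_iff_abs_le_one _).1 hγ
  have aux : ∀ r p q : ℝ, |r| ≤ 1 → 0 ≤ p → p ≤ δ → 0 ≤ q → q ≤ δ →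
      2 * |r| * (p * q) ≤ 2 * δ ^ 2 := by
    intro r p q hr hp0 hp hq0 hq
    have h1 : p * q ≤ δ * δ := mul_le_mul hp hq hq0 hδ0
    have h2 : 0 ≤ p * q := mul_nonneg hp0 hq0
    have h3 : |r| * (p * q) ≤ 1 * (p * q) := mul_le_mul_of_nonneg_right hr h2
    nlinarith
  have n0 : ‖(2 * (α * β * γ - 1)) • T x y z‖ ≤ δ ^ 2 := by
    rw [norm_smul, norm_T, hx, hy, hz, Real.norm_eq_abs, abs_of_nonpos (by linarith)]
    linarith
  have n1 : ‖(2 * α) • T x b c‖ ≤ 2 * δ ^ 2 := by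
    rw [norm_smul, norm_T, hx, Real.norm_eq_abs, abs_mul, abs_two, one_mul]
    exact aux α _ _ lα (norm_nonneg _) lb (norm_nonneg _) lc
  have n2 : ‖(2 * β) • T a y c‖ ≤ 2 * δ ^ 2 := by
    rw [norm_smul, norm_T, hy, Real.norm_eq_abs, abs_mul, abs_two, mul_one]
    exact aux β _ _ lβ (norm_nonneg _) la (norm_nonneg _) lc
  have n3 : ‖(2 * γ) • T a b z‖ ≤ 2 * δ ^ 2 := by
    rw [norm_smul, norm_T, hz, Real.norm_eq_abs, abs_mul, abs_two, mul_one]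
    exact aux γ _ _ lγ (norm_nonneg _) la (norm_nonneg _) lb
  calc _ ≤ ‖(2 * (α * β * γ - 1)) • T x y z‖ + ‖(2 * α) • T x b c‖ + ‖(2 * β) • T a y c‖ +
      ‖(2 * γ) • T a b z‖ := norm_add₄_le
    _ ≤ 7 * δ ^ 2 := by linarith

/-- the ambient isometry of the symmetry acts on the tangent vectors as minus the identity -/
lemma K_tangent (x y z : X ι) (hx : ‖x‖ = 1) (hy : ‖y‖ = 1) (hz : ‖z‖ = 1) (t : M ι)
    (ht : emb t = T x y z) (v : E ι) :
    K (S x) (S y) (S z) (Imm.D (E := E ι) (emb : M ι → F ι) t v) =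
      -Imm.D (E := E ι) (emb : M ι → F ι) t v := by
  have hi : MDifferentiableAt 𝓘(ℝ, E ι) 𝓘(ℝ, F ι) emb t :=
    (contMDiff_emb t).mdifferentiableAt (by simp)
  -- in the chart at `t`
  set φ := extChartAt 𝓘(ℝ, E ι) t with hφ
  set G : E ι → F ι := fun u => emb (φ.symm u) with hG
  have hGd : HasFDerivAt G (Imm.D (E := E ι) (emb : M ι → F ι) t) (φ t) := by
    have h1 := hi.hasMFDerivAt.2
    rw [writtenInExtChartAt, extChartAt_model_space_eq_id, modelWithCornersSelf_coe, range_id] at h1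
    have h2 : HasFDerivWithinAt G (Imm.D (E := E ι) (emb : M ι → F ι) t) univ (φ t) := h1
    exact hasFDerivWithinAt_univ.1 h2
  set Q : F ι →L[ℝ] F ι := ContinuousLinearMap.id ℝ (F ι) +
    ((K (S x) (S y) (S z) : F ι ≃L[ℝ] F ι) : F ι →L[ℝ] F ι) with hQ
  have hQapp : ∀ w, Q w = w + K (S x) (S y) (S z) w := fun w => rfl
  have hG0 : G (φ t) = emb t := by
    rw [hG]; simp only [hφ, extChartAt_to_inv]
  have h2 : HasFDerivAt (fun u => Q (G u)) (Q.comp (Imm.D (E := E ι) (emb : M ι → F ι) t)) (φ t) :=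
    Q.hasFDerivAt.comp (φ t) hGd
  have h3 : HasFDerivAt (fun u => Q (G u)) (0 : E ι →L[ℝ] F ι) (φ t) := by
    have hO : (fun u => G u - G (φ t)) =O[𝓝 (φ t)] fun u => u - φ t := hGd.isBigO_sub
    have hcont : ContinuousAt G (φ t) := hGd.continuousAt
    have hO2 : (fun u => Q (G u) - Q (G (φ t))) =O[𝓝 (φ t)] fun u => ‖G u - G (φ t)‖ ^ 2 := by
      refine Asymptotics.IsBigO.of_bound 7 ?_
      have hev : ∀ᶠ u in 𝓝 (φ t), 0 < inner ℝ (T x y z) (G u) := by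
        have hc : ContinuousAt (fun u => inner ℝ (T x y z) (G u)) (φ t) :=
          continuousAt_const.inner hcont
        have h0 : 0 < inner ℝ (T x y z) (G (φ t)) := by
          rw [hG0, ht, real_inner_self_eq_norm_sq, norm_T, hx, hy, hz]; norm_num
        exact hc.eventually (lt_mem_nhds h0)
      filter_upwards [hev] with u hu
      obtain ⟨x', y', z', hx', hy', hz', hu'⟩ := (φ.symm u).2
      have hu' : G u = T x' y' z' := hu'.symm
      rw [hu'] at hu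
      have hq := quad_close x y z x' y' z' hx hy hz hx' hy' hz' hu
      rw [hG0, ht, hu', hQapp, hQapp, K_T, K_T, S_self x hx, S_self y hy, S_self z hz,
        ← two_smul ℝ (T x y z), Real.norm_of_nonneg (by positivity)]
      exact hq
    have hO3 : (fun u => ‖G u - G (φ t)‖ ^ 2) =O[𝓝 (φ t)] fun u => ‖u - φ t‖ ^ 2 :=
      hO.norm_norm.pow 2
    rw [hasFDerivAt_iff_isLittleO]
    simp only [zero_apply, sub_zero]
    refine (hO2.trans hO3).trans_isLittleO ?_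
    have h4 : (fun u : E ι => ‖u - φ t‖ ^ 2) =o[𝓝 (φ t)] fun u => ‖u - φ t‖ := by
      have h5 : (fun u : E ι => ‖u - φ t‖) =o[𝓝 (φ t)] fun _ => (1 : ℝ) := by
        rw [Asymptotics.isLittleO_one_iff]
        have : ContinuousAt (fun u : E ι => ‖u - φ t‖) (φ t) := by fun_prop
        simpa using this.tendsto
      have h6 := h5.mul_isBigO (Asymptotics.isBigO_refl (fun u : E ι => ‖u - φ t‖) (𝓝 (φ t)))
      simpa [sq] using h6
    exact h4.of_norm_right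
  have h4 := h2.unique h3
  have h5 := congrArg (fun A : E ι →L[ℝ] F ι => A v) h4
  have h6 : Q (Imm.D (E := E ι) (emb : M ι → F ι) t v) = 0 := h5
  rw [hQapp] at h6
  exact eq_neg_of_add_eq_zero_right h6

lemma contMDiff_isoM (g : Aut ι) : ContMDiff 𝓘(ℝ, E ι) 𝓘(ℝ, E ι) ∞ (isoM g : M ι → M ι) := by
  rw [← contMDiffOn_univ]
  apply contMDiff_of_emb le_rfl
  rw [contMDiffOn_univ]
  exact g.1.contDiff.contMDiff.comp contMDiff_emb

/-- the differential of the symmetry at `x ⊗ y ⊗ z` is minus the identity -/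
theorem sym_hasMFDerivAt (x y z : X ι) (hx : ‖x‖ = 1) (hy : ‖y‖ = 1) (hz : ‖z‖ = 1) (t : M ι)
    (ht : emb t = T x y z) :
    HasMFDerivAt 𝓘(ℝ, E ι) 𝓘(ℝ, E ι) (sym x y z : M ι → M ι) t
      (-(ContinuousLinearMap.id ℝ (E ι))) := by
  have hst : sym x y z t = t := (isSymmetryAt_sym x y z hx hy hz t ht).2.1
  have hs : MDifferentiableAt 𝓘(ℝ, E ι) 𝓘(ℝ, E ι) (sym x y z : M ι → M ι) t :=
    (contMDiff_isoM _ t).mdifferentiableAt (by simp)
  have hi : ∀ t : M ι, MDifferentiableAt 𝓘(ℝ, E ι) 𝓘(ℝ, F ι) emb t :=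
    fun t => (contMDiff_emb t).mdifferentiableAt (by simp)
  set D₀ : E ι →L[ℝ] E ι := mfderiv 𝓘(ℝ, E ι) 𝓘(ℝ, E ι) (sym x y z : M ι → M ι) t with hD
  have h1 : mfderiv 𝓘(ℝ, E ι) 𝓘(ℝ, F ι) (emb ∘ (sym x y z : M ι → M ι)) t =
      (mfderiv 𝓘(ℝ, E ι) 𝓘(ℝ, F ι) emb (sym x y z t)).comp
        (mfderiv 𝓘(ℝ, E ι) 𝓘(ℝ, E ι) (sym x y z : M ι → M ι) t) :=
    mfderiv_comp (I' := 𝓘(ℝ, E ι)) t (hi _) hs
  have h2 : mfderiv 𝓘(ℝ, E ι) 𝓘(ℝ, F ι) ((K (S x) (S y) (S z) : F ι → F ι) ∘ emb) t =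
      (mfderiv 𝓘(ℝ, F ι) 𝓘(ℝ, F ι) (K (S x) (S y) (S z) : F ι → F ι) (emb t)).comp
        (mfderiv 𝓘(ℝ, E ι) 𝓘(ℝ, F ι) emb t) :=
    mfderiv_comp (I' := 𝓘(ℝ, F ι)) t
      (K (S x) (S y) (S z)).differentiable.differentiableAt.mdifferentiableAt (hi _)
  have h3 : (emb ∘ (sym x y z : M ι → M ι)) = (K (S x) (S y) (S z) : F ι → F ι) ∘ emb := rfl
  have h4 : mfderiv 𝓘(ℝ, F ι) 𝓘(ℝ, F ι) (K (S x) (S y) (S z) : F ι → F ι) (emb t) =
      ((K (S x) (S y) (S z) : F ι ≃L[ℝ] F ι) : F ι →L[ℝ] F ι) := by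
    rw [mfderiv_eq_fderiv]
    exact (K (S x) (S y) (S z) : F ι ≃L[ℝ] F ι).fderiv
  have key : ∀ v : E ι, D₀ v = -v := by
    intro v
    apply D_emb_inj t
    have e1 : Imm.D (E := E ι) (emb : M ι → F ι) (sym x y z t) (D₀ v) =
        K (S x) (S y) (S z) (Imm.D (E := E ι) (emb : M ι → F ι) t v) := by
      rw [h3, h2, h4] at h1
      exact (congrArg (fun A : E ι →L[ℝ] F ι => A v) h1).symm
    rw [hst, K_tangent x y z hx hy hz t ht] at e1
    rw [e1, map_neg]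
  have hD0 : D₀ = -(ContinuousLinearMap.id ℝ (E ι)) := by
    ext1 v
    rw [key v]
    rfl
  rw [← hD0]
  exact hs.hasMFDerivAt

/-- the differential of any symmetry is minus the identity -/
theorem hasMFDerivAt_of_isSymmetryAt (t : M ι) (s : M ι ≃ᵢ M ι) (h : IsSymmetryAt t s) :
    HasMFDerivAt 𝓘(ℝ, E ι) 𝓘(ℝ, E ι) (s : M ι → M ι) t
      (-(ContinuousLinearMap.id ℝ (E ι))) := by
  obtain ⟨x, y, z, hx, hy, hz, ht⟩ := t.2
  obtain ⟨R, G⟩ := riemannian_geo (E := E ι) (M := M ι)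
  have h1 := isSymmetryAt_sym x y z hx hy hz t ht.symm
  have h2 : (s : M ι → M ι) = sym x y z := funext fun u => G.symm_unique h h1 u
  rw [h2]
  exact sym_hasMFDerivAt x y z hx hy hz t ht.symm

end Q184.TwoNum
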