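import Pool.Agent.Q184.TwoNum.Diff

/-! Assembly of the properties of the manifold of unit elementary tensors. -/

open Bundle Bornology Set MeasureTheory Manifold Filter Topology
open scoped ENNReal ContDiff Manifold NNReal
open Pool.Agent.Helper562 Pool.Agent.Helper381

noncomputable section

namespace Q184.TwoNum

set_option linter.unusedSectionVars false
set_option maxSynthPendingDepth 3

attribute [local instance] rb mM

lemma card_V (n : ℕ) : Fintype.card (V n) = 2 ^ (n + 1) := by
  simp only [Fintype.card_fun, ZMod.card, Fintype.card_fin]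

lemma dm_V (n : ℕ) : dm (V n) = 3 * (2 ^ (n + 1) - 1) := by
  have h : Fintype.card {i : V n // i ≠ 0} = 2 ^ (n + 1) - 1 := by
    rw [← card_V n]
    simp only [ne_eq, Fintype.card_subtype_compl, Fintype.card_unique]
  unfold dm
  rw [Module.finrank_prod, Module.finrank_prod, Module.finrank_fintype_fun_eq_card, h]
  ring

theorem twoNumber_V (n : ℕ) (hn : 1 ≤ n) : twoNumber (M (V n)) = ((2 ^ (n + 2) : ℕ) : ℕ∞) := by
  rw [twoNumber_eq, card_V]
  · congr 1
    ring
  · rw [card_V]
    calc 4 = 2 ^ 2 := by norm_num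
      _ ≤ 2 ^ (n + 1) := Nat.pow_le_pow_right (by norm_num) (by omega)

theorem totalBetti_ne_top (n : ℕ) : totalBetti (ZMod 2) (M (V n)) ≠ ⊤ := by
  obtain ⟨R, G⟩ := riemannian_geo (E := E (V n)) (M := M (V n))
  obtain ⟨a1, N1, b1⟩ := G.betti_finite (M := M (V n)) (ZMod 2)
  rw [totalBetti_eq N1 a1 b1]
  exact ENat.natCast_ne_top _

end Q184.TwoNum
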