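import Pool.Agent.Q184.TwoNum.Space
import Pool.Agent.Helper381.Riem3

/-! The Riemannian distance on the manifold of unit elementary tensors, and its isometries. -/

open Bundle Bornology Set MeasureTheory Manifold Filter Topology
open scoped ENNReal ContDiff Manifold NNReal
open Pool.Agent.Helper562

noncomputable section

namespace Q184.TwoNum

set_option linter.unusedSectionVars false
set_option maxSynthPendingDepth 3

variable {ι : Type} [Fintype ι] [DecidableEq ι] [Zero ι]

/-- the Riemannian bundle structure -/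
@[reducible] def rb (ι : Type) [Fintype ι] [DecidableEq ι] [Zero ι] :
    RiemannianBundle (fun x : M ι => TangentSpace 𝓘(ℝ, E ι) x) :=
  ⟨(gM ι).toRiemannianMetric⟩

attribute [local instance] rb

lemma enorm_eq (x : M ι) (v : TangentSpace 𝓘(ℝ, E ι) x) :
    ‖v‖ₑ = ‖Imm.D (E := E ι) (emb : M ι → F ι) x v‖ₑ := by
  have h : ‖v‖ = ‖Imm.D (E := E ι) (emb : M ι → F ι) x v‖ := by
    rw [norm_eq_sqrt_real_inner, norm_eq_sqrt_real_inner]
    rfl
  rw [← ofReal_norm, ← ofReal_norm, h]

lemma cmd : IsContMDiffRiemannianBundle 𝓘(ℝ, E ι) ∞ (E ι)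
    (fun x : M ι => TangentSpace 𝓘(ℝ, E ι) x) :=
  ⟨(gM ι).inner, (gM ι).contMDiff, fun _ _ _ => rfl⟩

instance cb' : IsContinuousRiemannianBundle (E ι) (fun x : M ι => TangentSpace 𝓘(ℝ, E ι) x) :=
  ⟨(gM ι).inner, (gM ι).contMDiff.continuous, fun _ _ _ => rfl⟩

/-- the extended metric -/
@[reducible] def emM (ι : Type) [Fintype ι] [DecidableEq ι] [Zero ι] : EMetricSpace (M ι) :=
  EMetricSpace.ofRiemannianMetric 𝓘(ℝ, E ι) (M ι)

lemma lower (x y : M ι) : edist (emb x) (emb y) ≤ riemannianEDist 𝓘(ℝ, E ι) x y :=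
  Imm.edist_le_riemannianEDist emb contMDiff_emb enorm_eq x y

variable [Nontrivial ι]

instance : ConnectedSpace (M ι) := by
  have h1 : IsPreconnected (Mset ι) := isPreconnected_Mset Fintype.one_lt_card
  have h2 : PreconnectedSpace (M ι) := Subtype.preconnectedSpace h1
  have h3 : Nonempty (M ι) :=
    ⟨⟨T e0 e0 e0, e0, e0, e0, norm_e0, norm_e0, norm_e0, rfl⟩⟩
  exact ⟨h3⟩

lemma edist_ne_top (x y : M ι) : (emM ι).edist x y ≠ ⊤ := by
  let _ : EMetricSpace (M ι) := emM ι
  have h1 : IsClopen (Metric.eball x ⊤) := ⟨Metric.isClosed_eball_top, Metric.isOpen_eball⟩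
  have h3 : PreconnectedSpace (M ι) := inferInstance
  have h2 : Metric.eball x ⊤ = univ := by
    apply h1.eq_univ
    exact ⟨x, by simp⟩
  have h4 : y ∈ Metric.eball x ⊤ := by rw [h2]; trivial
  have h5 : edist y x < ⊤ := h4
  rw [edist_comm] at h5
  exact h5.ne

/-- the Riemannian distance makes `M` a metric space. -/
@[reducible] def mM (ι : Type) [Fintype ι] [DecidableEq ι] [Zero ι] [Nontrivial ι] :
    MetricSpace (M ι) := @EMetricSpace.toMetricSpace (M ι) (emM ι) edist_ne_top

attribute [local instance] mM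

lemma edist_mM (x y : M ι) : edist x y = riemannianEDist 𝓘(ℝ, E ι) x y := rfl

lemma irm : IsRiemannianManifold 𝓘(ℝ, E ι) (M ι) := ⟨fun _ _ => rfl⟩

lemma norm_le_dist (x y : M ι) : ‖emb x - emb y‖ ≤ dist x y := by
  have h := lower x y
  rw [← edist_mM, edist_dist, edist_dist, ENNReal.ofReal_le_ofReal_iff dist_nonneg,
    dist_eq_norm] at h
  exact h

/-- the action of ambient isometries -/
def act (g : Aut ι) (x : M ι) : M ι := ⟨g.1 x.1, (g.2 _).2 x.2⟩

lemma emb_act (g : Aut ι) (x : M ι) : emb (act g x) = g.1 (emb x) := rfl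

lemma edist_act_le (g : Aut ι) (x y : M ι) :
    riemannianEDist 𝓘(ℝ, E ι) (act g x) (act g y) ≤ riemannianEDist 𝓘(ℝ, E ι) x y := by
  apply le_of_forall_gt
  intro r hr
  obtain ⟨c, h0, h1, hc, hlt⟩ := exists_lt_of_riemannianEDist_lt hr
  rw [Imm.pathELength_eq emb contMDiff_emb enorm_eq c hc] at hlt
  have hcd : ContDiffOn ℝ 1 (emb ∘ c) (Icc 0 1) := by
    rw [← contMDiffOn_iff_contDiffOn]
    exact (contMDiff_emb.of_le (by simp)).comp_contMDiffOn hc
  have hce : ContMDiffOn 𝓘(ℝ, ℝ) 𝓘(ℝ, F ι) 1 (fun t => emb (act g (c t))) (Icc 0 1) := by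
    rw [contMDiffOn_iff_contDiffOn]
    exact g.1.contDiff.comp_contDiffOn hcd
  have hc' : ContMDiffOn 𝓘(ℝ, ℝ) 𝓘(ℝ, E ι) 1 (fun t => act g (c t)) (Icc 0 1) :=
    contMDiff_of_emb (by simp) hce
  have h2 := riemannianEDist_le_pathELength hc' rfl rfl (zero_le_one (α := ℝ))
  simp only [h0, h1] at h2
  refine lt_of_le_of_lt h2 ?_
  rw [Imm.pathELength_eq emb contMDiff_emb enorm_eq _ hc']
  refine lt_of_le_of_lt (le_of_eq ?_) hlt
  apply setLIntegral_congr_fun measurableSet_Icc (fun t ht ↦ ?_)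
  have hd : DifferentiableWithinAt ℝ (emb ∘ c) (Icc 0 1) t := (hcd t ht).differentiableWithinAt (by simp)
  have h3 : HasDerivWithinAt (fun t => g.1 ((emb ∘ c) t)) (g.1 (derivWithin (emb ∘ c) (Icc 0 1) t))
      (Icc 0 1) t := by
    have := (g.1 : F ι ≃L[ℝ] F ι).hasFDerivAt.comp_hasDerivWithinAt t hd.hasDerivWithinAt
    exact this
  have h4 := h3.derivWithin (uniqueDiffOn_Icc zero_lt_one t ht)
  have h5 : (emb ∘ fun t => act g (c t)) = fun t => g.1 ((emb ∘ c) t) := rfl
  simp only [h5, h4]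
  rw [← ofReal_norm, ← ofReal_norm, g.1.norm_map]

/-- the inverse of an ambient isometry -/
def Aut.inv (g : Aut ι) : Aut ι := ⟨g.1.symm, g.symm_mem⟩

lemma act_inv_act (g : Aut ι) (x : M ι) : act g.inv (act g x) = x := by
  apply Subtype.ext
  exact g.1.symm_apply_apply _

lemma act_act_inv (g : Aut ι) (x : M ι) : act g (act g.inv x) = x := by
  apply Subtype.ext
  exact g.1.apply_symm_apply _

/-- ambient isometries act as isometries -/
def isoM (g : Aut ι) : M ι ≃ᵢ M ι where
  toFun := act g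
  invFun := act g.inv
  left_inv := act_inv_act g
  right_inv := act_act_inv g
  isometry_toFun := by
    intro x y
    apply le_antisymm
    · exact edist_act_le g x y
    · have := edist_act_le g.inv (act g x) (act g y)
      rw [act_inv_act, act_inv_act] at this
      exact this

lemma isoM_apply (g : Aut ι) (x : M ι) : isoM g x = act g x := rfl

end Q184.TwoNum
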