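import Pool.Agent.Q184.TwoNum.Tensor
import Pool.Agent.Helper562.Imm

/-! The manifold of unit elementary tensors with its induced Riemannian metric. -/

open Bundle Bornology Set MeasureTheory Manifold Filter Topology
open scoped ENNReal ContDiff Manifold NNReal
open Pool.Agent.Helper562

noncomputable section

namespace Q184.TwoNum

set_option linter.unusedSectionVars false
set_option maxSynthPendingDepth 3

variable (ι : Type) [Fintype ι] [DecidableEq ι] [Zero ι]

/-- affine coordinates of one factor -/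
abbrev W : Type := {i : ι // i ≠ 0} → ℝ

/-- affine coordinates -/
abbrev W3 : Type := W ι × W ι × W ι

/-- the dimension -/
def dm : ℕ := Module.finrank ℝ (W3 ι)

/-- the model space -/
abbrev E : Type := EuclideanSpace ℝ (Fin (dm ι))

/-- identification of the affine coordinates with the model space -/
def L : W3 ι ≃L[ℝ] E ι :=
  ContinuousLinearEquiv.ofFinrankEq (by simp [dm])

/-- the manifold of unit elementary tensors -/
def M : Type := {t : F ι // t ∈ Mset ι}

instance : TopologicalSpace (M ι) := instTopologicalSpaceSubtype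
instance : T3Space (M ι) := inferInstanceAs (T3Space {t : F ι // t ∈ Mset ι})
instance : CompactSpace (M ι) := isCompact_iff_compactSpace.1 isCompact_Mset

variable {ι}

/-- the inclusion -/
def emb (t : M ι) : F ι := t.1

lemma emb_inj : Function.Injective (emb : M ι → F ι) := Subtype.val_injective

lemma isInducing_emb : IsInducing (emb : M ι → F ι) := IsInducing.subtypeVal

lemma continuous_emb : Continuous (emb : M ι → F ι) := continuous_subtype_val

/-- the base vector -/
def e0 : X ι := EuclideanSpace.single 0 1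

lemma norm_e0 : ‖(e0 : X ι)‖ = 1 := by simp [e0]

/-- the lift of affine coordinates -/
def raw (u : W ι) : X ι := WithLp.toLp 2 fun i => if h : i = 0 then 1 else u ⟨i, h⟩

lemma raw_zero (u : W ι) : raw u 0 = 1 := by simp [raw]

lemma raw_ne (u : W ι) (i : {i : ι // i ≠ 0}) : raw u i.1 = u i := by simp [raw, i.2]

lemma norm_raw_pos (u : W ι) : 0 < ‖raw u‖ := by
  rw [norm_pos_iff]
  intro h
  have := raw_zero u
  rw [h] at this
  simp at this

lemma contDiff_raw : ContDiff ℝ ∞ (raw : W ι → X ι) := by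
  rw [contDiff_euclidean]
  intro i
  by_cases h : i = 0
  · simp only [raw, h, dite_true]
    exact contDiff_const
  · simp only [raw, h, dite_false]
    fun_prop

/-- the unit lift of affine coordinates -/
def nrm (u : W ι) : X ι := (‖raw u‖)⁻¹ • raw u

lemma norm_nrm (u : W ι) : ‖nrm u‖ = 1 := by
  rw [nrm, norm_smul, norm_inv, norm_norm, inv_mul_cancel₀ (norm_raw_pos u).ne']

lemma nrm_apply (u : W ι) (i : ι) : nrm u i = (‖raw u‖)⁻¹ * raw u i := rfl

lemma contDiff_nrm : ContDiff ℝ ∞ (nrm : W ι → X ι) := by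
  have h1 : ContDiff ℝ ∞ (fun u : W ι => (‖raw u‖)⁻¹) := by
    apply ContDiff.inv
    · exact contDiff_raw.norm ℝ fun u => norm_pos_iff.1 (norm_raw_pos u)
    · exact fun u => (norm_raw_pos u).ne'
  exact h1.smul contDiff_raw

/-- the parametrisation -/
def psi (u : W3 ι) : F ι := T (nrm u.1) (nrm u.2.1) (nrm u.2.2)

lemma psi_mem (u : W3 ι) : psi u ∈ Mset ι :=
  ⟨_, _, _, norm_nrm _, norm_nrm _, norm_nrm _, rfl⟩

lemma contDiff_T_comp {V : Type*} [NormedAddCommGroup V] [NormedSpace ℝ V] {f g h : V → X ι}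
    {n : ℕ∞ω} (hf : ContDiff ℝ n f) (hg : ContDiff ℝ n g) (hh : ContDiff ℝ n h) :
    ContDiff ℝ n fun v => T (f v) (g v) (h v) := by
  rw [contDiff_euclidean] at hf hg hh ⊢
  intro p
  exact ((hf p.1).mul (hg p.2.1)).mul (hh p.2.2)

lemma contDiff_psi : ContDiff ℝ ∞ (psi : W3 ι → F ι) := by
  unfold psi
  exact contDiff_T_comp (contDiff_nrm.comp contDiff_fst)
    (contDiff_nrm.comp (contDiff_fst.comp contDiff_snd))
    (contDiff_nrm.comp (contDiff_snd.comp contDiff_snd))

/-- the base coordinate -/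
def b0 (t : F ι) : ℝ := t (0, 0, 0)

lemma contDiff_coord (p : ι × ι × ι) : ContDiff ℝ ∞ fun t : F ι => t p :=
  (EuclideanSpace.proj (𝕜 := ℝ) p : F ι →L[ℝ] ℝ).contDiff

lemma contDiff_b0 : ContDiff ℝ ∞ (b0 : F ι → ℝ) := contDiff_coord _

lemma b0_psi_pos (u : W3 ι) : 0 < b0 (psi u) := by
  unfold b0 psi
  rw [T_apply]
  simp only [nrm_apply, raw_zero, mul_one]
  have h1 := norm_raw_pos u.1
  have h2 := norm_raw_pos u.2.1
  have h3 := norm_raw_pos u.2.2
  positivity

/-- the retraction onto affine coordinates -/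
def ret (t : F ι) : W3 ι :=
  (fun i => t (i.1, 0, 0) / b0 t, fun j => t (0, j.1, 0) / b0 t, fun k => t (0, 0, k.1) / b0 t)

lemma contDiffAt_ret (t : F ι) (ht : b0 t ≠ 0) : ContDiffAt ℝ ∞ ret t := by
  unfold ret
  have h : ∀ p : ι × ι × ι, ContDiffAt ℝ ∞ (fun t : F ι => t p / b0 t) t := fun p =>
    (contDiff_coord p).contDiffAt.div contDiff_b0.contDiffAt ht
  apply ContDiffAt.prodMk
  · exact contDiffAt_pi.2 fun i => h _
  · apply ContDiffAt.prodMk
    · exact contDiffAt_pi.2 fun i => h _
    · exact contDiffAt_pi.2 fun i => h _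

lemma ret_psi (u : W3 ι) : ret (psi u) = u := by
  have h1 := (norm_raw_pos u.1).ne'
  have h2 := (norm_raw_pos u.2.1).ne'
  have h3 := (norm_raw_pos u.2.2).ne'
  unfold ret b0 psi
  refine Prod.ext ?_ (Prod.ext ?_ ?_)
  · funext i
    simp only [T_apply, nrm_apply, raw_zero, raw_ne]
    field_simp
  · funext i
    simp only [T_apply, nrm_apply, raw_zero, raw_ne]
    field_simp
  · funext i
    simp only [T_apply, nrm_apply, raw_zero, raw_ne]
    field_simp

/-- a unit vector with nonzero base coordinate is determined by its affine coordinates up to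
sign -/
lemma nrm_quot (x : X ι) (hx : ‖x‖ = 1) (h0 : x 0 ≠ 0) (i : ι) :
    nrm (fun i : {i : ι // i ≠ 0} => x i.1 / x 0) i = |x 0| / x 0 * x i := by
  have hraw : raw (fun i : {i : ι // i ≠ 0} => x i.1 / x 0) = (x 0)⁻¹ • x := by
    ext j
    by_cases hj : j = 0
    · subst hj
      rw [raw_zero, PiLp.smul_apply, smul_eq_mul, inv_mul_cancel₀ h0]
    · rw [raw_ne _ ⟨j, hj⟩, PiLp.smul_apply, smul_eq_mul]
      ring
  rw [nrm_apply, hraw, norm_smul, hx, norm_inv, PiLp.smul_apply, smul_eq_mul, Real.norm_eq_abs,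
    mul_one, inv_inv]
  ring

lemma psi_ret (t : F ι) (ht : t ∈ Mset ι) (hb : 0 < b0 t) : psi (ret t) = t := by
  obtain ⟨x, y, z, hx, hy, hz, rfl⟩ := ht
  unfold b0 at hb
  rw [T_apply] at hb
  have hx0 : x 0 ≠ 0 := by rintro h; rw [h] at hb; simp at hb
  have hy0 : y 0 ≠ 0 := by rintro h; rw [h] at hb; simp at hb
  have hz0 : z 0 ≠ 0 := by rintro h; rw [h] at hb; simp at hb
  have hret : ret (T x y z) = (fun i => x i.1 / x 0, fun j => y j.1 / y 0, fun k => z k.1 / z 0) := by
    unfold ret b0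
    refine Prod.ext ?_ (Prod.ext ?_ ?_)
    · funext i
      simp only [T_apply]
      field_simp
    · funext i
      simp only [T_apply]
      field_simp
    · funext i
      simp only [T_apply]
      field_simp
  rw [hret]
  ext p
  unfold psi
  rw [T_apply, T_apply]
  simp only
  rw [nrm_quot x hx hx0, nrm_quot y hy hy0, nrm_quot z hz hz0]
  have h1 : |x 0| / x 0 * (|y 0| / y 0) * (|z 0| / z 0) = 1 := by
    have h2 : |x 0| * |y 0| * |z 0| = x 0 * y 0 * z 0 := by
      rw [← abs_mul, ← abs_mul, abs_of_pos hb]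
    field_simp
    exact h2
  linear_combination (x p.1 * y p.2.1 * z p.2.2) * h1

variable (ι) in
/-- linear isometries of the ambient space preserving the set of unit elementary tensors -/
def Aut : Type := {g : F ι ≃ₗᵢ[ℝ] F ι // ∀ t, g t ∈ Mset ι ↔ t ∈ Mset ι}

lemma Aut.symm_mem (g : Aut ι) (t : F ι) : g.1.symm t ∈ Mset ι ↔ t ∈ Mset ι := by
  rw [← g.2 (g.1.symm t), LinearIsometryEquiv.apply_symm_apply]

/-- the chart given by an ambient isometry -/
def chart (g : Aut ι) : OpenPartialHomeomorph (M ι) (E ι) where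
  toFun x := L ι (ret (g.1 x.1))
  invFun y := ⟨g.1.symm (psi ((L ι).symm y)), (g.symm_mem _).2 (psi_mem _)⟩
  source := {x | 0 < b0 (g.1 x.1)}
  target := univ
  map_source' x hx := mem_univ _
  map_target' y hy := by
    change 0 < b0 (g.1 (g.1.symm (psi ((L ι).symm y))))
    rw [LinearIsometryEquiv.apply_symm_apply]
    exact b0_psi_pos _
  left_inv' x hx := by
    apply Subtype.ext
    simp only [ContinuousLinearEquiv.symm_apply_apply]
    rw [psi_ret _ ((g.2 _).2 x.2) hx, LinearIsometryEquiv.symm_apply_apply]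
  right_inv' y hy := by
    simp only [LinearIsometryEquiv.apply_symm_apply, ret_psi, ContinuousLinearEquiv.apply_symm_apply]
  open_source := by
    have h : Continuous (fun x : M ι => b0 (g.1 x.1)) :=
      contDiff_b0.continuous.comp (g.1.continuous.comp continuous_subtype_val)
    exact isOpen_lt continuous_const h
  open_target := isOpen_univ
  continuousOn_toFun := by
    apply (L ι).continuous.comp_continuousOn
    intro x hx
    have h1 : ContinuousAt ret (g.1 x.1) := (contDiffAt_ret _ (ne_of_gt hx)).continuousAt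
    have h2 : ContinuousAt (fun x : M ι => g.1 x.1) x :=
      (g.1.continuous.comp continuous_subtype_val).continuousAt
    exact (ContinuousAt.comp (f := fun x : M ι => g.1 x.1) h1 h2).continuousWithinAt
  continuousOn_invFun := by
    apply Continuous.continuousOn
    apply Continuous.subtype_mk
    exact g.1.symm.continuous.comp (contDiff_psi.continuous.comp (L ι).symm.continuous)

/-- two unit vectors are related by an isometry -/
lemma exists_iso (x y : X ι) (hx : ‖x‖ = 1) (hy : ‖y‖ = 1) : ∃ A : X ι ≃ₗᵢ[ℝ] X ι, A x = y :=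
  ⟨_, Submodule.reflection_sub (hx.trans hy.symm)⟩

lemma exists_chart (t : M ι) : ∃ g : Aut ι, 0 < b0 (g.1 t.1) := by
  obtain ⟨t, x, y, z, hx, hy, hz, rfl⟩ := t
  obtain ⟨A, hA⟩ := exists_iso x e0 hx norm_e0
  obtain ⟨B, hB⟩ := exists_iso y e0 hy norm_e0
  obtain ⟨C, hC⟩ := exists_iso z e0 hz norm_e0
  refine ⟨⟨K A B C, K_mem_iff A B C⟩, ?_⟩
  change 0 < b0 (K A B C (T x y z))
  rw [K_T, hA, hB, hC]
  simp [b0, T_apply, e0]

/-- index of the preferred chart -/
def idx (x : M ι) : Aut ι := (exists_chart x).choose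

lemma idx_spec (x : M ι) : 0 < b0 ((idx x).1 x.1) := (exists_chart x).choose_spec

instance : ChartedSpace (E ι) (M ι) where
  atlas := range chart
  chartAt x := chart (idx x)
  mem_chart_source x := idx_spec x
  chart_mem_atlas x := mem_range_self _

lemma chartAt_eq (x : M ι) : chartAt (E ι) x = chart (idx x) := rfl

instance : IsManifold 𝓘(ℝ, E ι) ∞ (M ι) := by
  apply isManifold_of_contDiffOn
  rintro _ _ ⟨b, rfl⟩ ⟨c, rfl⟩
  simp only [modelWithCornersSelf_coe, modelWithCornersSelf_coe_symm, Function.comp_id,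
    Function.id_comp, range_id, inter_univ, preimage_id]
  intro y hy
  apply ContDiffAt.contDiffWithinAt
  have hy2 : 0 < b0 (c.1 (b.1.symm (psi ((L ι).symm y)))) := hy.2
  have h1 : ContDiffAt ℝ ∞ (fun y => L ι (ret (c.1 (b.1.symm (psi ((L ι).symm y)))))) y := by
    apply (L ι).contDiff.contDiffAt.comp
    apply ContDiffAt.comp (g := ret) (f := fun y => c.1 (b.1.symm (psi ((L ι).symm y))))
    · exact contDiffAt_ret _ hy2.ne'
    · exact (c.1.contDiff.comp (b.1.symm.contDiff.comp
        (contDiff_psi.comp (L ι).symm.contDiff))).contDiffAt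
  exact h1

lemma contMDiff_emb : ContMDiff 𝓘(ℝ, E ι) 𝓘(ℝ, F ι) ∞ (emb : M ι → F ι) := by
  intro x
  rw [contMDiffAt_iff]
  refine ⟨continuous_emb.continuousAt, ?_⟩
  simp only [mfld_simps]
  apply ContDiff.contDiffWithinAt
  exact (idx x).1.symm.contDiff.comp (contDiff_psi.comp (L ι).symm.contDiff)

/-- A map into `M` is smooth as soon as it is smooth in the ambient space. -/
lemma contMDiff_of_emb {N H : Type*} {V : Type*} [NormedAddCommGroup V] [NormedSpace ℝ V]
    [TopologicalSpace H] [TopologicalSpace N] {I : ModelWithCorners ℝ V H}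
    [ChartedSpace H N] {g : N → M ι}
    {s : Set N} {n : ℕ∞ω} (hn : n ≤ (∞ : ℕ∞ω))
    (hg : ContMDiffOn I 𝓘(ℝ, F ι) n (fun y => emb (g y)) s) :
    ContMDiffOn I 𝓘(ℝ, E ι) n g s := by
  intro t ht
  rw [contMDiffWithinAt_iff_target]
  constructor
  · have h1 : ContinuousWithinAt (fun y => emb (g y)) s t := (hg t ht).continuousWithinAt
    exact (isInducing_emb.continuousWithinAt_iff).2 h1
  · have h2 : ContMDiffAt 𝓘(ℝ, F ι) 𝓘(ℝ, E ι) n (fun y => L ι (ret ((idx (g t)).1 y)))
        (emb (g t)) := by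
      rw [contMDiffAt_iff_contDiffAt]
      apply (L ι).contDiff.contDiffAt.comp
      apply ContDiffAt.comp (g := ret) (f := fun y => (idx (g t)).1 y)
      · exact (contDiffAt_ret _ (idx_spec (g t)).ne').of_le hn
      · exact (idx (g t)).1.contDiff.contDiffAt
    exact ContMDiffAt.comp_contMDiffWithinAt (f := fun y => emb (g y)) t h2 (hg t ht)

lemma D_emb_inj (x : M ι) : Function.Injective (Imm.D (E := E ι) (emb : M ι → F ι) x) := by
  have hx : x ∈ (chartAt (E ι) x).source := mem_chart_source (E ι) x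
  have h1 := (mdifferentiable_chart (I := 𝓘(ℝ, E ι)) x).mfderiv_injective hx
  have hev : (chartAt (E ι) x : M ι → E ι) = fun y => L ι (ret ((idx x).1 (emb y))) := rfl
  have hd : DifferentiableAt ℝ (fun z => L ι (ret ((idx x).1 z))) (emb x) := by
    apply (L ι).differentiableAt.comp
    apply DifferentiableAt.comp (g := ret) (f := fun z => (idx x).1 z)
    · exact (contDiffAt_ret _ (idx_spec x).ne').differentiableAt (by simp)
    · exact (idx x).1.differentiable.differentiableAt
  have hi : MDifferentiableAt 𝓘(ℝ, E ι) 𝓘(ℝ, F ι) emb x :=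
    (contMDiff_emb x).mdifferentiableAt (by simp)
  have h2 : mfderiv 𝓘(ℝ, E ι) 𝓘(ℝ, E ι) (chartAt (E ι) x : M ι → E ι) x =
      (mfderiv 𝓘(ℝ, F ι) 𝓘(ℝ, E ι) (fun z => L ι (ret ((idx x).1 z))) (emb x)).comp
        (mfderiv 𝓘(ℝ, E ι) 𝓘(ℝ, F ι) emb x) := by
    rw [hev]
    exact mfderiv_comp (I' := 𝓘(ℝ, F ι)) x hd.mdifferentiableAt hi
  intro v w hvw
  apply h1
  rw [h2]
  exact congrArg (mfderiv 𝓘(ℝ, F ι) 𝓘(ℝ, E ι) (fun z => L ι (ret ((idx x).1 z))) (emb x)) hvw

variable (ι) in
/-- the induced Riemannian metric -/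
def gM : ContMDiffRiemannianMetric 𝓘(ℝ, E ι) ∞ (E ι) (fun x : M ι => TangentSpace 𝓘(ℝ, E ι) x) :=
  Imm.metric emb contMDiff_emb D_emb_inj

end Q184.TwoNum
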