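import Pool.Agent.Q184.TwoNum.Metric
import Pool.Agent.Q184.TwoNum.Smith

/-! The symmetries of the manifold of unit elementary tensors, antipodal pairs. -/

open Bundle Bornology Set MeasureTheory Manifold Filter Topology
open scoped ENNReal ContDiff Manifold NNReal
open Pool.Agent.Helper562 Pool.Agent.Helper381

noncomputable section

namespace Q184.TwoNum

set_option linter.unusedSectionVars false
set_option maxSynthPendingDepth 3

variable {ι : Type} [Fintype ι] [DecidableEq ι] [Zero ι] [Nontrivial ι]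

attribute [local instance] rb mM

/-- the reflection in the line spanned by `x` -/
def S (x : X ι) : X ι ≃ₗᵢ[ℝ] X ι := (Submodule.span ℝ {x}).reflection

lemma S_apply (x v : X ι) (hx : ‖x‖ = 1) : S x v = (2 * inner ℝ x v) • x - v := by
  unfold S
  rw [Submodule.reflection_singleton_apply, hx]
  simp only [one_pow, RCLike.ofReal_real_eq_id, id_eq, div_one]
  rw [two_smul]
  module

lemma S_S (x v : X ι) : S x (S x v) = v := Submodule.reflection_reflection _ _

lemma inner_S (x v : X ι) (hx : ‖x‖ = 1) (hv : ‖v‖ = 1) :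
    inner ℝ (S x v) v = 2 * (inner ℝ x v) ^ 2 - 1 := by
  rw [S_apply x v hx, inner_sub_left, inner_smul_left, real_inner_self_eq_norm_sq, hv]
  simp only [conj_trivial]
  ring

lemma S_self (x : X ι) (hx : ‖x‖ = 1) : S x x = x := by
  rw [S_apply x x hx, real_inner_self_eq_norm_sq, hx]
  norm_num
  rw [two_smul]
  abel

lemma S_perp (x v : X ι) (hx : ‖x‖ = 1) (h : inner ℝ x v = 0) : S x v = -v := by
  rw [S_apply x v hx, h]
  simp

lemma emb_norm (t : M ι) : ‖emb t‖ = 1 := by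
  obtain ⟨t, x, y, z, hx, hy, hz, rfl⟩ := t
  change ‖T x y z‖ = 1
  rw [norm_T, hx, hy, hz]
  norm_num

/-- the symmetry at `x ⊗ y ⊗ z` -/
def sym (x y z : X ι) : M ι ≃ᵢ M ι := isoM ⟨K (S x) (S y) (S z), K_mem_iff _ _ _⟩

lemma emb_sym (x y z x' y' z' : X ι) (u : M ι) (hu : emb u = T x' y' z') :
    emb (sym x y z u) = T (S x x') (S y y') (S z z') := by
  change K _ _ _ (emb u) = _
  rw [hu, K_T]

/-- product of three numbers of absolute value at most one -/
lemma sq_eq_one_of_mul {a b c : ℝ} (ha : |a| ≤ 1) (hb : |b| ≤ 1) (hc : |c| ≤ 1)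
    (h : a * b * c = 1) : a ^ 2 = 1 ∧ b ^ 2 = 1 ∧ c ^ 2 = 1 := by
  have ha2 : a ^ 2 ≤ 1 := by rw [← sq_abs]; nlinarith [abs_nonneg a]
  have hb2 : b ^ 2 ≤ 1 := by rw [← sq_abs]; nlinarith [abs_nonneg b]
  have hc2 : c ^ 2 ≤ 1 := by rw [← sq_abs]; nlinarith [abs_nonneg c]
  have h2 : a ^ 2 * b ^ 2 * c ^ 2 = 1 := by
    calc a ^ 2 * b ^ 2 * c ^ 2 = (a * b * c) ^ 2 := by ring
      _ = 1 := by rw [h]; norm_num
  have pa := sq_nonneg a
  have pb := sq_nonneg b
  have pc := sq_nonneg c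
  have hab : a ^ 2 * b ^ 2 ≤ 1 := by nlinarith
  have h3 : c ^ 2 = 1 := by nlinarith
  rw [h3, mul_one] at h2
  have h4 : a ^ 2 = 1 := by nlinarith
  rw [h4, one_mul] at h2
  exact ⟨h4, h2, h3⟩

lemma zero_or_one {t : ℝ} (h : (2 * t ^ 2 - 1) ^ 2 = 1) : t = 0 ∨ t ^ 2 = 1 := by
  have : t ^ 2 * (t ^ 2 - 1) = 0 := by linear_combination (1 / 4) * h
  rcases mul_eq_zero.1 this with h | h
  · left; exact pow_eq_zero_iff two_ne_zero |>.1 h
  · exact Or.inr (by linarith)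

lemma one_or_neg_one {a : ℝ} (h : a ^ 2 = 1) : a = 1 ∨ a = -1 := by
  have : (a - 1) * (a + 1) = 0 := by linear_combination h
  rcases mul_eq_zero.1 this with h | h
  · left; linarith
  · right; linarith

lemma eq_or_neg_of_sq (x v : X ι) (hx : ‖x‖ = 1) (hv : ‖v‖ = 1) (h : (inner ℝ x v) ^ 2 = 1) :
    v = x ∨ v = -x := by
  rcases one_or_neg_one h with h | h
  · exact Or.inl ((inner_eq_one_iff_of_norm_eq_one hx hv).1 h).symm
  · right
    rw [(inner_eq_neg_one_iff_of_norm_eq_one hx hv).1 h, neg_neg]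

/-- the inner products of the factors for an antipodal pair -/
lemma antipodal_cases (x y z x' y' z' : X ι) (hx : ‖x‖ = 1) (hy : ‖y‖ = 1) (hz : ‖z‖ = 1)
    (hx' : ‖x'‖ = 1) (hy' : ‖y'‖ = 1) (hz' : ‖z'‖ = 1)
    (h : T (S x x') (S y y') (S z z') = T x' y' z') :
    (inner ℝ x x' = 0 ∨ (inner ℝ x x') ^ 2 = 1) ∧
    (inner ℝ y y' = 0 ∨ (inner ℝ y y') ^ 2 = 1) ∧
    (inner ℝ z z' = 0 ∨ (inner ℝ z z') ^ 2 = 1) ∧
    (2 * (inner ℝ x x') ^ 2 - 1) * (2 * (inner ℝ y y') ^ 2 - 1) *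
      (2 * (inner ℝ z z') ^ 2 - 1) = 1 := by
  have h1 : inner ℝ (T (S x x') (S y y') (S z z')) (T x' y' z') = (1 : ℝ) := by
    rw [h, real_inner_self_eq_norm_sq, norm_T, hx', hy', hz']; norm_num
  rw [inner_T, inner_S _ _ hx hx', inner_S _ _ hy hy', inner_S _ _ hz hz'] at h1
  have hb : ∀ x v : X ι, ‖x‖ = 1 → ‖v‖ = 1 → |2 * (inner ℝ x v) ^ 2 - 1| ≤ 1 := by
    intro x v hx hv
    have := abs_real_inner_le_norm x v
    rw [hx, hv, mul_one] at this
    have h2 : (inner ℝ x v) ^ 2 ≤ 1 := by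
      rw [← sq_abs]; nlinarith [abs_nonneg (inner ℝ x v)]
    rw [abs_le]
    constructor <;> nlinarith [sq_nonneg (inner ℝ x v)]
  obtain ⟨q1, q2, q3⟩ := sq_eq_one_of_mul (hb _ _ hx hx') (hb _ _ hy hy') (hb _ _ hz hz') h1
  exact ⟨zero_or_one q1, zero_or_one q2, zero_or_one q3, h1⟩

/-- if all three squares are one, the two tensors agree up to sign -/
lemma pm_of_all_one (x y z x' y' z' : X ι) (hx : ‖x‖ = 1) (hy : ‖y‖ = 1) (hz : ‖z‖ = 1)
    (hx' : ‖x'‖ = 1) (hy' : ‖y'‖ = 1) (hz' : ‖z'‖ = 1)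
    (h1 : (inner ℝ x x') ^ 2 = 1) (h2 : (inner ℝ y y') ^ 2 = 1) (h3 : (inner ℝ z z') ^ 2 = 1) :
    T x' y' z' = T x y z ∨ T x' y' z' = -T x y z := by
  have h1 := eq_or_neg_of_sq _ _ hx hx' h1
  have h2 := eq_or_neg_of_sq _ _ hy hy' h2
  have h3 := eq_or_neg_of_sq _ _ hz hz' h3
  rcases h1 with h1 | h1 <;> rcases h2 with h2 | h2 <;> rcases h3 with h3 | h3 <;>
    rw [h1, h2, h3] <;> simp only [T_neg₁, T_neg₂, T_neg₃, neg_neg] <;> simp

/-- the explicit symmetry is a symmetry -/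
lemma isSymmetryAt_sym (x y z : X ι) (hx : ‖x‖ = 1) (hy : ‖y‖ = 1) (hz : ‖z‖ = 1) (t : M ι)
    (ht : emb t = T x y z) : IsSymmetryAt t (sym x y z) := by
  refine ⟨?_, ?_, 1, one_pos, ?_⟩
  · intro u
    apply emb_inj
    obtain ⟨u, x', y', z', hx', hy', hz', rfl⟩ := u
    change K _ _ _ (K _ _ _ (T x' y' z')) = T x' y' z'
    rw [K_T, K_T, S_S, S_S, S_S]
  · apply emb_inj
    rw [emb_sym x y z x y z t ht, S_self _ hx, S_self _ hy, S_self _ hz, ht]
  · intro u hu hfix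
    have h1 : ‖emb u - emb t‖ < 1 := lt_of_le_of_lt (norm_le_dist u t) hu
    have h2 : 0 < inner ℝ (emb t) (emb u) := by
      have h3 : ‖emb u - emb t‖ ^ 2 < 1 := by nlinarith [norm_nonneg (emb u - emb t)]
      rw [norm_sub_sq_real, emb_norm, emb_norm, real_inner_comm] at h3
      linarith
    obtain ⟨x', y', z', hx', hy', hz', hu'⟩ := u.2
    have hu' : emb u = T x' y' z' := hu'.symm
    have h4 := h2
    rw [ht, hu', inner_T] at h4
    have h5 : T (S x x') (S y y') (S z z') = T x' y' z' := by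
      rw [← emb_sym x y z x' y' z' u hu', hfix, hu']
    obtain ⟨qx, qy, qz, -⟩ := antipodal_cases x y z x' y' z' hx hy hz hx' hy' hz' h5
    have nx : (inner ℝ x x') ^ 2 = 1 := by
      rcases qx with h | h
      · exfalso; rw [h] at h4; simp at h4
      · exact h
    have ny : (inner ℝ y y') ^ 2 = 1 := by
      rcases qy with h | h
      · exfalso; rw [h] at h4; simp at h4
      · exact h
    have nz : (inner ℝ z z') ^ 2 = 1 := by
      rcases qz with h | h
      · exfalso; rw [h] at h4; simp at h4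
      · exact h
    rcases pm_of_all_one x y z x' y' z' hx hy hz hx' hy' hz' nx ny nz with h | h
    · apply emb_inj
      rw [hu', h, ht]
    · exfalso
      rw [hu', h, ← ht, inner_neg_right, real_inner_self_eq_norm_sq, emb_norm] at h2
      norm_num at h2

lemma isSymmetric_M : IsSymmetric (M ι) := by
  intro t
  obtain ⟨x, y, z, hx, hy, hz, ht⟩ := t.2
  exact ⟨sym x y z, isSymmetryAt_sym x y z hx hy hz t ht.symm⟩

instance : IsContMDiffRiemannianBundle 𝓘(ℝ, E ι) ∞ (E ι)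
    (fun x : M ι => TangentSpace 𝓘(ℝ, E ι) x) := cmd

instance : IsRiemannianManifold 𝓘(ℝ, E ι) (M ι) := irm

/-- the points of an antipodal set are fixed by the explicit symmetries -/
lemma sym_fix {A : Set (M ι)} (hA : IsAntipodal A) {t u : M ι} (ht : t ∈ A) (hu : u ∈ A)
    (x y z : X ι) (hx : ‖x‖ = 1) (hy : ‖y‖ = 1) (hz : ‖z‖ = 1) (ht' : emb t = T x y z) :
    sym x y z u = u := by
  obtain ⟨R, G⟩ := riemannian_geo (E := E ι) (M := M ι)
  obtain ⟨s, hs, hfix⟩ := hA t ht u hu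
  rw [G.symm_unique (isSymmetryAt_sym x y z hx hy hz t ht') hs u, hfix]

/-- a choice of the three factors of a unit elementary tensor -/
lemma exists_comp : ∃ c : Fin 3 → M ι → X ι, (∀ i t, ‖c i t‖ = 1) ∧
    ∀ t, emb t = T (c 0 t) (c 1 t) (c 2 t) := by
  have h : ∀ t : M ι, ∃ c : Fin 3 → X ι, (∀ i, ‖c i‖ = 1) ∧ emb t = T (c 0) (c 1) (c 2) := by
    intro t
    obtain ⟨x, y, z, hx, hy, hz, ht⟩ := t.2
    refine ⟨![x, y, z], ?_, ht.symm⟩
    intro i
    fin_cases i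
    · exact hx
    · exact hy
    · exact hz
  choose c hc1 hc2 using h
  exact ⟨fun i t => c t i, fun i t => hc1 t i, fun t => hc2 t⟩

end Q184.TwoNum
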