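import Mathlib

/-! Elementary tensors of three vectors in a Euclidean space, and the ambient isometries. -/

open scoped ContDiff

noncomputable section

namespace Q184.TwoNum

set_option linter.unusedSectionVars false

variable (ι : Type) [Fintype ι] [DecidableEq ι]

/-- the factor space -/
abbrev X : Type := EuclideanSpace ℝ ι

/-- the ambient space of triple tensors -/
abbrev F : Type := EuclideanSpace ℝ (ι × ι × ι)

variable {ι}

/-- the elementary tensor `x ⊗ y ⊗ z` -/
def T (x y z : X ι) : F ι := WithLp.toLp 2 fun p => x p.1 * y p.2.1 * z p.2.2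

lemma T_apply (x y z : X ι) (p : ι × ι × ι) : T x y z p = x p.1 * y p.2.1 * z p.2.2 := rfl

lemma inner_T (x y z x' y' z' : X ι) :
    inner ℝ (T x y z) (T x' y' z') = inner ℝ x x' * inner ℝ y y' * inner ℝ z z' := by
  simp only [PiLp.inner_apply, T_apply, Fintype.sum_prod_type, RCLike.inner_apply,
    conj_trivial]
  rw [Finset.sum_mul_sum, Finset.sum_mul]
  refine Finset.sum_congr rfl fun i _ => ?_
  rw [Finset.sum_mul]
  refine Finset.sum_congr rfl fun j _ => ?_
  rw [Finset.mul_sum]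
  refine Finset.sum_congr rfl fun k _ => ?_
  ring

lemma norm_T (x y z : X ι) : ‖T x y z‖ = ‖x‖ * ‖y‖ * ‖z‖ := by
  have h : ‖T x y z‖ ^ 2 = (‖x‖ * ‖y‖ * ‖z‖) ^ 2 := by
    rw [← real_inner_self_eq_norm_sq, inner_T, real_inner_self_eq_norm_sq,
      real_inner_self_eq_norm_sq, real_inner_self_eq_norm_sq]
    ring
  exact (sq_eq_sq₀ (norm_nonneg _) (by positivity)).1 h

lemma continuous_T : Continuous fun p : X ι × X ι × X ι => T p.1 p.2.1 p.2.2 := by
  unfold T
  apply (PiLp.continuous_toLp 2 _).comp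
  fun_prop

lemma T_neg₁ (x y z : X ι) : T (-x) y z = -T x y z := by
  ext p; simp [T_apply]

lemma T_neg₂ (x y z : X ι) : T x (-y) z = -T x y z := by
  ext p; simp [T_apply]

lemma T_neg₃ (x y z : X ι) : T x y (-z) = -T x y z := by
  ext p; simp [T_apply]

/-- an isometry acting on the first slot -/
def slot1 (A : X ι ≃ₗᵢ[ℝ] X ι) : F ι ≃ₗᵢ[ℝ] F ι where
  toFun t := WithLp.toLp 2 fun p => A (WithLp.toLp 2 fun i => t (i, p.2)) p.1
  map_add' t t' := by
    ext p
    have : (WithLp.toLp 2 fun i => (t + t') (i, p.2) : X ι) =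
        WithLp.toLp 2 (fun i => t (i, p.2)) + WithLp.toLp 2 (fun i => t' (i, p.2)) := by
      ext i; simp
    change A (WithLp.toLp 2 fun i => (t + t') (i, p.2)) p.1 = _
    rw [this, map_add]; rfl
  map_smul' c t := by
    ext p
    have : (WithLp.toLp 2 fun i => (c • t) (i, p.2) : X ι) =
        c • WithLp.toLp 2 (fun i => t (i, p.2)) := by
      ext i; simp
    change A (WithLp.toLp 2 fun i => (c • t) (i, p.2)) p.1 = _
    rw [this, map_smul]; rfl
  invFun t := WithLp.toLp 2 fun p => A.symm (WithLp.toLp 2 fun i => t (i, p.2)) p.1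
  left_inv t := by
    ext p
    have : (WithLp.toLp 2 fun i => A (WithLp.toLp 2 fun i' => t (i', p.2)) i : X ι) =
        A (WithLp.toLp 2 fun i' => t (i', p.2)) := by
      ext i; simp
    change A.symm (WithLp.toLp 2 fun i => A (WithLp.toLp 2 fun i' => t (i', p.2)) i) p.1 = _
    rw [this, LinearIsometryEquiv.symm_apply_apply]
  right_inv t := by
    ext p
    have : (WithLp.toLp 2 fun i => A.symm (WithLp.toLp 2 fun i' => t (i', p.2)) i : X ι) =
        A.symm (WithLp.toLp 2 fun i' => t (i', p.2)) := by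
      ext i; simp
    change A (WithLp.toLp 2 fun i => A.symm (WithLp.toLp 2 fun i' => t (i', p.2)) i) p.1 = _
    rw [this, LinearIsometryEquiv.apply_symm_apply]
  norm_map' t := by
    have key : ∀ (B : X ι → X ι) (_ : ∀ x, ‖B x‖ = ‖x‖) (t : F ι),
        ‖(WithLp.toLp 2 fun p => B (WithLp.toLp 2 fun i => t (i, p.2)) p.1 : F ι)‖ ^ 2 =
          ∑ q : ι × ι, ‖(WithLp.toLp 2 fun i => t (i, q) : X ι)‖ ^ 2 := by
      intro B hB t
      rw [EuclideanSpace.norm_sq_eq, Fintype.sum_prod_type, Finset.sum_comm]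
      refine Finset.sum_congr rfl fun q _ => ?_
      rw [← hB, EuclideanSpace.norm_sq_eq]
    have h1 := key A A.norm_map t
    have h2 := key id (fun _ => rfl) t
    have h3 : (WithLp.toLp 2 fun p => id (WithLp.toLp 2 fun i => t (i, p.2) : X ι) p.1 : F ι) = t := by
      ext p; simp
    rw [h3] at h2
    exact (sq_eq_sq₀ (norm_nonneg _) (norm_nonneg _)).1 (h1.trans h2.symm)

lemma slot1_T (A : X ι ≃ₗᵢ[ℝ] X ι) (x y z : X ι) : slot1 A (T x y z) = T (A x) y z := by
  ext p
  have : (WithLp.toLp 2 fun i => T x y z (i, p.2) : X ι) = (y p.2.1 * z p.2.2) • x := by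
    ext i; simp [T_apply]; ring
  change A (WithLp.toLp 2 fun i => T x y z (i, p.2)) p.1 = _
  rw [this, map_smul, PiLp.smul_apply, T_apply, smul_eq_mul]
  ring

/-- the cyclic permutation of the coordinates -/
def cyc : ι × ι × ι ≃ ι × ι × ι where
  toFun p := (p.2.1, p.2.2, p.1)
  invFun p := (p.2.2, p.1, p.2.1)
  left_inv _ := rfl
  right_inv _ := rfl

/-- the cyclic permutation of the slots -/
def rot : F ι ≃ₗᵢ[ℝ] F ι := LinearIsometryEquiv.piLpCongrLeft 2 ℝ ℝ cyc

lemma rot_T (x y z : X ι) : rot (T x y z) = T y z x := by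
  ext p
  change T x y z (cyc.symm p) = _
  simp only [T_apply, cyc, Equiv.coe_fn_symm_mk]
  ring

lemma rot_symm_T (x y z : X ι) : rot.symm (T x y z) = T z x y := by
  rw [LinearIsometryEquiv.symm_apply_eq, rot_T]

/-- the Kronecker product of three isometries -/
def K (A B C : X ι ≃ₗᵢ[ℝ] X ι) : F ι ≃ₗᵢ[ℝ] F ι :=
  (slot1 A).trans (rot.trans ((slot1 B).trans (rot.trans ((slot1 C).trans rot))))

lemma K_T (A B C : X ι ≃ₗᵢ[ℝ] X ι) (x y z : X ι) : K A B C (T x y z) = T (A x) (B y) (C z) := by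
  simp only [K, LinearIsometryEquiv.coe_trans, Function.comp_apply, slot1_T, rot_T]

lemma K_symm_T (A B C : X ι ≃ₗᵢ[ℝ] X ι) (x y z : X ι) :
    (K A B C).symm (T x y z) = T (A.symm x) (B.symm y) (C.symm z) := by
  rw [LinearIsometryEquiv.symm_apply_eq, K_T]
  simp

variable (ι) in
/-- the set of unit elementary tensors -/
def Mset : Set (F ι) := {t | ∃ x y z : X ι, ‖x‖ = 1 ∧ ‖y‖ = 1 ∧ ‖z‖ = 1 ∧ T x y z = t}

lemma K_mem_iff (A B C : X ι ≃ₗᵢ[ℝ] X ι) (t : F ι) : K A B C t ∈ Mset ι ↔ t ∈ Mset ι := by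
  constructor
  · rintro ⟨x, y, z, hx, hy, hz, h⟩
    refine ⟨A.symm x, B.symm y, C.symm z, by simpa, by simpa, by simpa, ?_⟩
    rw [← K_symm_T, h]
    simp
  · rintro ⟨x, y, z, hx, hy, hz, rfl⟩
    exact ⟨A x, B y, C z, by simpa, by simpa, by simpa, (K_T A B C x y z).symm⟩

lemma isCompact_Mset : IsCompact (Mset ι) := by
  have h1 : IsCompact (Metric.sphere (0 : X ι) 1) := isCompact_sphere _ _
  have h2 := (h1.prod (h1.prod h1)).image continuous_T
  convert h2 using 1
  ext t
  constructor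
  · rintro ⟨x, y, z, hx, hy, hz, rfl⟩
    exact ⟨(x, y, z), ⟨by simpa using hx, by simpa using hy, by simpa using hz⟩, rfl⟩
  · rintro ⟨⟨x, y, z⟩, ⟨hx, hy, hz⟩, rfl⟩
    exact ⟨x, y, z, by simpa using hx, by simpa using hy, by simpa using hz, rfl⟩

lemma isPreconnected_Mset (h : 1 < Fintype.card ι) : IsPreconnected (Mset ι) := by
  have h1 : IsPreconnected (Metric.sphere (0 : X ι) 1) := by
    apply isPreconnected_sphere
    rw [← Module.finrank_eq_rank, finrank_euclideanSpace]
    exact_mod_cast h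
  have h2 := (h1.prod (h1.prod h1)).image _ continuous_T.continuousOn
  convert h2 using 1
  ext t
  constructor
  · rintro ⟨x, y, z, hx, hy, hz, rfl⟩
    exact ⟨(x, y, z), ⟨by simpa using hx, by simpa using hy, by simpa using hz⟩, rfl⟩
  · rintro ⟨⟨x, y, z⟩, ⟨hx, hy, hz⟩, rfl⟩
    exact ⟨x, y, z, by simpa using hx, by simpa using hy, by simpa using hz, rfl⟩

end Q184.TwoNum
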